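import Mathlib

set_option autoImplicit false

open Filter Topology MeasureTheory Manifold Bundle
open scoped ENNReal ContDiff

namespace Pool.Agent.Results.MP_794bd6_an.HeteroclinicTorus2

noncomputable section

/-! ### Definitions: Kolmogorov-Sinai entropy and the sum of the positive exponents -/

/-- Shannon entropy (natural logarithm) of the partition of `M` into the `n`-step itineraries
`x ↦ (P x, P (f x), ..., P (f^(n-1) x))` of the finite partition given by `P : M → Fin k`. -/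
def itinEntropy {M : Type*} [MeasurableSpace M] (f : M → M) (ρ : Measure M) {k : ℕ}
    (P : M → Fin k) (n : ℕ) : ℝ :=
  ∑ a : Fin n → Fin k, Real.negMulLog (ρ.real {x | ∀ i : Fin n, P (f^[i] x) = a i})

/-- The Kolmogorov-Sinai entropy `h(ρ)` of `f` with respect to `ρ`: the supremum over all finite
measurable partitions `P` of the (upper) limit of `H(P ∨ f⁻¹P ∨ ... ∨ f^(-(n-1))P) / n`. -/
def ksEntropy {M : Type*} [MeasurableSpace M] (f : M → M) (ρ : Measure M) : ℝ≥0∞ :=
  ⨆ (k : ℕ) (P : M → Fin k) (_ : Measurable P),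
    limsup (fun n : ℕ => ENNReal.ofReal (itinEntropy f ρ P n / n)) atTop

/-- The norm of the map `Λ^j A` induced by the linear map `A : V → W` on `j`-th exterior powers,
computed on the dual side: the operator norm of the pullback `A^* : Alt^j(W) → Alt^j(V)` of
alternating `j`-forms. -/
def extNorm {V W : Type*} [NormedAddCommGroup V] [NormedSpace ℝ V] [NormedAddCommGroup W]
    [NormedSpace ℝ W] (A : V →L[ℝ] W) (j : ℕ) : ℝ :=
  ‖(ContinuousAlternatingMap.compContinuousLinearMapCLM A :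
    (W [⋀^Fin j]→L[ℝ] ℝ) →L[ℝ] (V [⋀^Fin j]→L[ℝ] ℝ))‖

section
variable {E : Type*} [NormedAddCommGroup E] [NormedSpace ℝ E]
  {H : Type*} [TopologicalSpace H] (I : ModelWithCorners ℝ E H)
  {M : Type*} [TopologicalSpace M] [ChartedSpace H M]
  [RiemannianBundle (fun x : M => TangentSpace I x)]

/-- `χ₊(x)`, the sum of the positive characteristic exponents of `f` at `x`, as the (lower) limit
of `(1/n) log ‖Λ T_x f^n‖`, where `‖Λ T_x f^n‖ = max_{j ≤ dim M} ‖Λ^j T_x f^n‖` and norms come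
from the given Riemannian metric on the tangent bundle of the manifold `M`. -/
def chiPlus (f : M → M) (x : M) : ℝ≥0∞ :=
  liminf (fun n : ℕ => ENNReal.ofReal
    ((1 / (n : ℝ)) * Real.log (⨆ j : Fin (Module.finrank ℝ E + 1),
      extNorm (mfderiv I I (f^[n]) x) j))) atTop

end

/-- The two-torus. -/
abbrev T2 : Type := Circle × Circle

/-- The model with corners of the two-torus. -/
abbrev IT : ModelWithCorners ℝ (EuclideanSpace ℝ (Fin 1) × EuclideanSpace ℝ (Fin 1))
    (ModelProd (EuclideanSpace ℝ (Fin 1)) (EuclideanSpace ℝ (Fin 1))) := (𝓡 1).prod (𝓡 1)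

attribute [local instance] finrank_real_complex_fact'

/-! ### The two elementary families of circle maps -/

/-- `x + i y ↦ k x + i y`, normalised. -/
def dilF (k : ℝ) (z : ℂ) : ℂ :=
  Complex.equivRealProdCLM.symm
    (k * z.re / √((k * z.re) ^ 2 + z.im ^ 2), z.im / √((k * z.re) ^ 2 + z.im ^ 2))

def mobF (c : ℝ) (z : ℂ) : ℂ :=
  Complex.equivRealProdCLM.symm
    ((Real.cosh c * z.re - Real.sinh c) / (Real.cosh c - Real.sinh c * z.re),
      z.im / (Real.cosh c - Real.sinh c * z.re))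

@[simp] lemma dilF_re (k : ℝ) (z : ℂ) :
    (dilF k z).re = k * z.re / √((k * z.re) ^ 2 + z.im ^ 2) := rfl
@[simp] lemma dilF_im (k : ℝ) (z : ℂ) :
    (dilF k z).im = z.im / √((k * z.re) ^ 2 + z.im ^ 2) := rfl
@[simp] lemma mobF_re (c : ℝ) (z : ℂ) :
    (mobF c z).re = (Real.cosh c * z.re - Real.sinh c) / (Real.cosh c - Real.sinh c * z.re) := rfl
@[simp] lemma mobF_im (c : ℝ) (z : ℂ) :
    (mobF c z).im = z.im / (Real.cosh c - Real.sinh c * z.re) := rfl

lemma contDiffAt_dilF (k : ℝ) (z : ℂ) (h : (k * z.re) ^ 2 + z.im ^ 2 ≠ 0) :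
    ContDiffAt ℝ ω (dilF k) z := by
  unfold dilF
  have h' : √((k * z.re) ^ 2 + z.im ^ 2) ≠ 0 := by
    rw [Real.sqrt_ne_zero']
    exact lt_of_le_of_ne (by positivity) h.symm
  have hre : ContDiffAt ℝ ω (fun z : ℂ => z.re) z := Complex.reCLM.contDiff.contDiffAt
  have him : ContDiffAt ℝ ω (fun z : ℂ => z.im) z := Complex.imCLM.contDiff.contDiffAt
  have hs : ContDiffAt ℝ ω (fun z : ℂ => √((k * z.re) ^ 2 + z.im ^ 2)) z :=
    ContDiffAt.sqrt (((contDiffAt_const.mul hre).pow 2).add (him.pow 2)) h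
  apply (Complex.equivRealProdCLM.symm.contDiff).contDiffAt.comp
  apply ContDiffAt.prodMk
  · exact (contDiffAt_const.mul hre).div hs h'
  · exact him.div hs h'

lemma contDiffAt_mobF (q : ℝ × ℂ) (h : Real.cosh q.1 - Real.sinh q.1 * q.2.re ≠ 0) :
    ContDiffAt ℝ ω (fun q : ℝ × ℂ => mobF q.1 q.2) q := by
  unfold mobF
  have hre : ContDiffAt ℝ ω (fun z : ℝ × ℂ => z.2.re) q :=
    (Complex.reCLM.contDiff.contDiffAt).comp q contDiffAt_snd
  have him : ContDiffAt ℝ ω (fun z : ℝ × ℂ => z.2.im) q :=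
    (Complex.imCLM.contDiff.contDiffAt).comp q contDiffAt_snd
  have hch : ContDiffAt ℝ ω (fun z : ℝ × ℂ => Real.cosh z.1) q :=
    (Real.contDiff_cosh.contDiffAt).comp q contDiffAt_fst
  have hsh : ContDiffAt ℝ ω (fun z : ℝ × ℂ => Real.sinh z.1) q :=
    (Real.contDiff_sinh.contDiffAt).comp q contDiffAt_fst
  apply (Complex.equivRealProdCLM.symm.contDiff).contDiffAt.comp
  apply ContDiffAt.prodMk
  · exact ((hch.mul hre).sub hsh).div (hch.sub (hsh.mul hre)) h
  · exact him.div (hch.sub (hsh.mul hre)) h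

/-! ### Circle maps -/

lemma circle_sq (z : Circle) : (z : ℂ).re ^ 2 + (z : ℂ).im ^ 2 = 1 := by
  have h := Circle.normSq_coe z
  rw [Complex.normSq_apply] at h
  nlinarith

lemma mem_circle_of {v : ℂ} (h : v.re ^ 2 + v.im ^ 2 = 1) : v ∈ Submonoid.unitSphere ℂ := by
  have h1 : ‖v‖ ^ 2 = 1 := by
    rw [← Complex.normSq_eq_norm_sq, Complex.normSq_apply]
    nlinarith
  have h2 : ‖v‖ = 1 := by
    have := norm_nonneg v
    nlinarith
  exact mem_sphere_zero_iff_norm.2 h2

lemma circle_ext {z w : Circle} (h1 : (z : ℂ).re = (w : ℂ).re) (h2 : (z : ℂ).im = (w : ℂ).im) :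
    z = w := Circle.ext (Complex.ext h1 h2)

lemma dil_pos {k : ℝ} (hk : 0 < k) {z : ℂ} (hz : z.re ^ 2 + z.im ^ 2 = 1) :
    0 < (k * z.re) ^ 2 + z.im ^ 2 := by
  rcases eq_or_ne z.im 0 with h | h
  · have : z.re ^ 2 = 1 := by rw [h] at hz; linarith
    rw [mul_pow, this]
    positivity
  · positivity

lemma mob_pos (c : ℝ) {z : ℂ} (hz : z.re ^ 2 + z.im ^ 2 = 1) :
    0 < Real.cosh c - Real.sinh c * z.re := by
  have h1 : |z.re| ≤ 1 := by
    rw [← sq_le_one_iff_abs_le_one]; nlinarith [sq_nonneg z.im]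
  have h2 : |Real.sinh c| < Real.cosh c := by
    have h3 := Real.cosh_sq c
    have h4 := Real.cosh_pos c
    rw [abs_lt]
    constructor <;> nlinarith [Real.sinh_lt_cosh c, Real.exp_pos c, Real.cosh_add_sinh c]
  have h5 : Real.sinh c * z.re ≤ |Real.sinh c| := by
    calc Real.sinh c * z.re ≤ |Real.sinh c * z.re| := le_abs_self _
      _ = |Real.sinh c| * |z.re| := abs_mul _ _
      _ ≤ |Real.sinh c| * 1 := by gcongr
      _ = |Real.sinh c| := mul_one _
  linarith

lemma dilF_sq {k : ℝ} (hk : 0 < k) {z : ℂ} (hz : z.re ^ 2 + z.im ^ 2 = 1) :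
    (dilF k z).re ^ 2 + (dilF k z).im ^ 2 = 1 := by
  have h := dil_pos hk hz
  have h2 : √((k * z.re) ^ 2 + z.im ^ 2) ^ 2 = (k * z.re) ^ 2 + z.im ^ 2 := Real.sq_sqrt h.le
  rw [dilF_re, dilF_im, div_pow, div_pow, h2, ← add_div, div_self h.ne']

lemma mobF_sq (c : ℝ) {z : ℂ} (hz : z.re ^ 2 + z.im ^ 2 = 1) :
    (mobF c z).re ^ 2 + (mobF c z).im ^ 2 = 1 := by
  have h := mob_pos c hz
  rw [mobF_re, mobF_im, div_pow, div_pow, ← add_div, div_eq_one_iff_eq (by positivity)]
  have h3 := Real.cosh_sq c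
  have h4 : z.im ^ 2 = 1 - z.re ^ 2 := by linarith
  rw [h4]
  nlinarith

/-- The circle map `x + i y ↦ (k x + i y) / |k x + i y|`. -/
def dilC (k : ℝ) (hk : 0 < k) (z : Circle) : Circle :=
  ⟨dilF k z, mem_circle_of (dilF_sq hk (circle_sq z))⟩

/-- The hyperbolic Moebius circle map, `tan (x / 2) ↦ exp c * tan (x / 2)` in terms of
`z = exp (i x)`. -/
def mobC (c : ℝ) (z : Circle) : Circle :=
  ⟨mobF c z, mem_circle_of (mobF_sq c (circle_sq z))⟩

@[simp] lemma coe_dilC (k : ℝ) (hk : 0 < k) (z : Circle) : ((dilC k hk z : Circle) : ℂ) = dilF k z :=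
  rfl
@[simp] lemma coe_mobC (c : ℝ) (z : Circle) : ((mobC c z : Circle) : ℂ) = mobF c z := rfl

lemma dilC_dilC {k l : ℝ} (hk : 0 < k) (hl : 0 < l) (hkl : l * k = 1) (z : Circle) :
    dilC l hl (dilC k hk z) = z := by
  have hz := circle_sq z
  have h := dil_pos hk hz
  set N := √((k * (z : ℂ).re) ^ 2 + (z : ℂ).im ^ 2) with hN
  have hN0 : 0 < N := Real.sqrt_pos.2 h
  have key : √((l * (k * (z : ℂ).re / N)) ^ 2 + ((z : ℂ).im / N) ^ 2) = 1 / N := by
    rw [Real.sqrt_eq_iff_mul_self_eq (by positivity) (by positivity)]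
    have : l * (k * (z : ℂ).re / N) = (z : ℂ).re / N := by
      rw [← mul_div_assoc, ← mul_assoc, hkl, one_mul]
    rw [this]
    field_simp
    linarith
  apply circle_ext
  · simp only [coe_dilC, dilF_re, dilF_im, ← hN]
    rw [key]
    have : l * (k * (z : ℂ).re / N) = (z : ℂ).re / N := by
      rw [← mul_div_assoc, ← mul_assoc, hkl, one_mul]
    rw [this]
    field_simp
  · simp only [coe_dilC, dilF_re, dilF_im, ← hN]
    rw [key]
    field_simp

lemma mobC_mobC {c d : ℝ} (h : d = -c) (z : Circle) : mobC d (mobC c z) = z := by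
  subst h
  have hz := circle_sq z
  have h := mob_pos c hz
  have hc := Real.cosh_sq c
  have hden : Real.cosh c + Real.sinh c * ((Real.cosh c * (z : ℂ).re - Real.sinh c) /
      (Real.cosh c - Real.sinh c * (z : ℂ).re)) = 1 / (Real.cosh c - Real.sinh c * (z : ℂ).re) := by
    field_simp
    nlinarith
  apply circle_ext
  · simp only [coe_mobC, mobF_re, Real.cosh_neg, Real.sinh_neg, neg_mul, sub_neg_eq_add]
    rw [hden]
    generalize hD : Real.cosh c - Real.sinh c * (z : ℂ).re = D at h ⊢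
    have h5 : (Real.cosh c * ((Real.cosh c * (z : ℂ).re - Real.sinh c) / D) + Real.sinh c) / (1 / D)
        = Real.cosh c * (Real.cosh c * (z : ℂ).re - Real.sinh c) + Real.sinh c * D := by
      field_simp
    rw [h5, ← hD]
    have h6 : Real.cosh c * (Real.cosh c * (z : ℂ).re - Real.sinh c) +
        Real.sinh c * (Real.cosh c - Real.sinh c * (z : ℂ).re) =
        (Real.cosh c ^ 2 - Real.sinh c ^ 2) * (z : ℂ).re := by ring
    rw [h6, hc]
    ring
  · simp only [coe_mobC, mobF_re, mobF_im, Real.cosh_neg, Real.sinh_neg, neg_mul, sub_neg_eq_add]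
    rw [hden]
    field_simp


/-! ### The diffeomorphism of the torus -/


/-- The inclusion of the torus in `ℂ × ℂ`. -/
def incl (p : T2) : ℂ × ℂ := ((p.1 : ℂ), (p.2 : ℂ))

lemma contMDiff_incl : ContMDiff IT 𝓘(ℝ, ℂ × ℂ) ω incl := by
  have h : ContMDiff (𝓡 1) 𝓘(ℝ, ℂ) ω (fun z : Circle => (z : ℂ)) :=
    contMDiff_coe_sphere (E := ℂ) (n := 1)
  exact (h.comp contMDiff_fst).prodMk_space (h.comp contMDiff_snd)

lemma contMDiff_of_coe {G : ℂ × ℂ → ℂ} (g : T2 → Circle) (hg : ∀ p, (g p : ℂ) = G (incl p))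
    (hG : ∀ p : T2, ContDiffAt ℝ ω G (incl p)) : ContMDiff IT (𝓡 1) ω g := by
  have h1 : ContMDiff IT 𝓘(ℝ, ℂ) ω (fun p : T2 => (g p : ℂ)) := by
    have : (fun p : T2 => (g p : ℂ)) = G ∘ incl := by
      funext p; exact hg p
    rw [this]
    intro p
    exact (hG p).contMDiffAt.comp p (contMDiff_incl p)
  exact ContMDiff.codRestrict_sphere (n := 1) (E := ℂ) h1 (fun p => (g p).2)


/-! #### The three factors -/

/-- The expansion constant `k = 5/4`. -/
def kk : ℝ := 5 / 4

/-- The coupling constant `ε = 1/4`. -/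
def ee : ℝ := 1 / 4

lemma kk_pos : 0 < kk := by unfold kk; norm_num
lemma kk_inv_pos : 0 < kk⁻¹ := inv_pos.2 kk_pos

/-- First factor: `(z, w) ↦ (dil z, dil w)`. -/
def mapD (p : T2) : T2 := (dilC kk kk_pos p.1, dilC kk kk_pos p.2)
/-- Inverse of the first factor. -/
def mapD' (p : T2) : T2 := (dilC kk⁻¹ kk_inv_pos p.1, dilC kk⁻¹ kk_inv_pos p.2)
/-- Second factor: `(z, w) ↦ (mob_{ε Re w} z, w)`. -/
def mapA (p : T2) : T2 := (mobC (ee * (p.2 : ℂ).re) p.1, p.2)
/-- Inverse of the second factor. -/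
def mapA' (p : T2) : T2 := (mobC (-(ee * (p.2 : ℂ).re)) p.1, p.2)
/-- Third factor: `(z, w) ↦ (z, mob_{- ε Re z} w)`. -/
def mapB (p : T2) : T2 := (p.1, mobC (-(ee * (p.1 : ℂ).re)) p.2)
/-- Inverse of the third factor. -/
def mapB' (p : T2) : T2 := (p.1, mobC (ee * (p.1 : ℂ).re) p.2)

lemma contMDiff_dil1 (k : ℝ) (hk : 0 < k) :
    ContMDiff IT (𝓡 1) ω (fun p : T2 => dilC k hk p.1) := by
  apply contMDiff_of_coe (G := fun q => dilF k q.1)
  · intro p; rfl
  · intro p
    exact (contDiffAt_dilF k (incl p).1 (dil_pos hk (circle_sq p.1)).ne').comp (incl p)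
      contDiffAt_fst

lemma contMDiff_dil2 (k : ℝ) (hk : 0 < k) :
    ContMDiff IT (𝓡 1) ω (fun p : T2 => dilC k hk p.2) := by
  apply contMDiff_of_coe (G := fun q => dilF k q.2)
  · intro p; rfl
  · intro p
    exact (contDiffAt_dilF k (incl p).2 (dil_pos hk (circle_sq p.2)).ne').comp (incl p)
      contDiffAt_snd

lemma contMDiff_mob1 (e : ℝ) :
    ContMDiff IT (𝓡 1) ω (fun p : T2 => mobC (e * (p.2 : ℂ).re) p.1) := by
  apply contMDiff_of_coe (G := fun q => mobF (e * q.2.re) q.1)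
  · intro p; rfl
  · intro p
    have h1 : ContDiffAt ℝ ω (fun q : ℂ × ℂ => ((e * q.2.re, q.1) : ℝ × ℂ)) (incl p) :=
      (contDiffAt_const.mul ((Complex.reCLM.contDiff.contDiffAt).comp _ contDiffAt_snd)).prodMk
        contDiffAt_fst
    exact ContDiffAt.comp (g := fun q : ℝ × ℂ => mobF q.1 q.2)
      (f := fun q : ℂ × ℂ => ((e * q.2.re, q.1) : ℝ × ℂ)) (incl p)
      (contDiffAt_mobF _ (mob_pos _ (circle_sq p.1)).ne') h1

lemma contMDiff_mob2 (e : ℝ) :
    ContMDiff IT (𝓡 1) ω (fun p : T2 => mobC (e * (p.1 : ℂ).re) p.2) := by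
  apply contMDiff_of_coe (G := fun q => mobF (e * q.1.re) q.2)
  · intro p; rfl
  · intro p
    have h1 : ContDiffAt ℝ ω (fun q : ℂ × ℂ => ((e * q.1.re, q.2) : ℝ × ℂ)) (incl p) :=
      (contDiffAt_const.mul ((Complex.reCLM.contDiff.contDiffAt).comp _ contDiffAt_fst)).prodMk
        contDiffAt_snd
    exact ContDiffAt.comp (g := fun q : ℝ × ℂ => mobF q.1 q.2)
      (f := fun q : ℂ × ℂ => ((e * q.1.re, q.2) : ℝ × ℂ)) (incl p)
      (contDiffAt_mobF _ (mob_pos _ (circle_sq p.2)).ne') h1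

/-- The first factor as a real-analytic diffeomorphism. -/
def diffD : Diffeomorph IT IT T2 T2 ω where
  toFun := mapD
  invFun := mapD'
  left_inv p := by
    apply Prod.ext <;> exact dilC_dilC kk_pos kk_inv_pos (inv_mul_cancel₀ kk_pos.ne') _
  right_inv p := by
    apply Prod.ext <;> exact dilC_dilC kk_inv_pos kk_pos (mul_inv_cancel₀ kk_pos.ne') _
  contMDiff_toFun := (contMDiff_dil1 kk kk_pos).prodMk (contMDiff_dil2 kk kk_pos)
  contMDiff_invFun := (contMDiff_dil1 _ kk_inv_pos).prodMk (contMDiff_dil2 _ kk_inv_pos)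

/-- The second factor as a real-analytic diffeomorphism. -/
def diffA : Diffeomorph IT IT T2 T2 ω where
  toFun := mapA
  invFun := mapA'
  left_inv p := by
    apply Prod.ext
    · exact mobC_mobC rfl _
    · rfl
  right_inv p := by
    apply Prod.ext
    · exact mobC_mobC (neg_neg _).symm _
    · rfl
  contMDiff_toFun := (contMDiff_mob1 ee).prodMk contMDiff_snd
  contMDiff_invFun := by
    change ContMDiff IT IT ω (fun p : T2 => (mobC (-(ee * (p.2 : ℂ).re)) p.1, p.2))
    have h := (contMDiff_mob1 (-ee)).prodMk (contMDiff_snd (I := 𝓡 1) (J := 𝓡 1) (n := ω))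
    simpa only [neg_mul] using h

/-- The third factor as a real-analytic diffeomorphism. -/
def diffB : Diffeomorph IT IT T2 T2 ω where
  toFun := mapB
  invFun := mapB'
  left_inv p := by
    apply Prod.ext
    · rfl
    · exact mobC_mobC (neg_neg _).symm _
  right_inv p := by
    apply Prod.ext
    · rfl
    · exact mobC_mobC rfl _
  contMDiff_toFun := by
    change ContMDiff IT IT ω (fun p : T2 => (p.1, mobC (-(ee * (p.1 : ℂ).re)) p.2))
    have h := (contMDiff_fst (I := 𝓡 1) (J := 𝓡 1) (n := ω)).prodMk (contMDiff_mob2 (-ee))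
    simpa only [neg_mul] using h
  contMDiff_invFun := contMDiff_fst.prodMk (contMDiff_mob2 ee)

/-- The real-analytic diffeomorphism of the two-torus. -/
def theMap : Diffeomorph IT IT T2 T2 ω := (diffD.trans diffA).trans diffB

lemma theMap_apply (p : T2) : theMap p = mapB (mapA (mapD p)) := rfl


/-! ### The Lyapunov function -/

lemma exp_le_mob (c : ℝ) {X : ℝ} (hX : X ^ 2 ≤ 1) :
    Real.exp (-(c * X)) ≤ Real.cosh c - Real.sinh c * X := by
  have hX1 : |X| ≤ 1 := by rwa [← sq_le_one_iff_abs_le_one]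
  obtain ⟨h1, h2⟩ := abs_le.1 hX1
  have h := convexOn_exp.2 (Set.mem_univ c) (Set.mem_univ (-c))
    (show 0 ≤ (1 - X) / 2 by linarith) (show 0 ≤ (1 + X) / 2 by linarith) (by ring)
  simp only [smul_eq_mul] at h
  have h3 : (1 - X) / 2 * c + (1 + X) / 2 * -c = -(c * X) := by ring
  rw [h3] at h
  rw [Real.cosh_eq, Real.sinh_eq]
  linarith

lemma re_sq_le (z : Circle) : (z : ℂ).re ^ 2 ≤ 1 := by
  nlinarith [circle_sq z, sq_nonneg (z : ℂ).im]

lemma mob_im_sq_le (c : ℝ) (z : Circle) :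
    ((mobC c z : Circle) : ℂ).im ^ 2 ≤ (z : ℂ).im ^ 2 * Real.exp (2 * (c * (z : ℂ).re)) := by
  rw [coe_mobC, mobF_im, div_pow]
  have h1 := exp_le_mob c (re_sq_le z)
  have h2 := Real.exp_pos (-(c * (z : ℂ).re))
  have h3 : Real.exp (-(c * (z : ℂ).re)) ^ 2 ≤ (Real.cosh c - Real.sinh c * (z : ℂ).re) ^ 2 := by
    gcongr
  rw [div_le_iff₀ (lt_of_lt_of_le (by positivity) h3)]
  have h4 : Real.exp (2 * (c * (z : ℂ).re)) * Real.exp (-(c * (z : ℂ).re)) ^ 2 = 1 := by
    rw [← Real.exp_nat_mul, ← Real.exp_add]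
    simp
  calc (z : ℂ).im ^ 2 = (z : ℂ).im ^ 2 * (Real.exp (2 * (c * (z : ℂ).re)) *
        Real.exp (-(c * (z : ℂ).re)) ^ 2) := by rw [h4, mul_one]
    _ ≤ (z : ℂ).im ^ 2 * (Real.exp (2 * (c * (z : ℂ).re)) *
        (Real.cosh c - Real.sinh c * (z : ℂ).re) ^ 2) := by gcongr
    _ = _ := by ring

lemma mob_re_sub (c : ℝ) (z : Circle) :
    (z : ℂ).re - ((mobC c z : Circle) : ℂ).re =
      Real.sinh c * ((1 - (z : ℂ).re ^ 2) / (Real.cosh c - Real.sinh c * (z : ℂ).re)) := by
  have h := (mob_pos c (circle_sq z)).ne'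
  rw [coe_mobC, mobF_re]
  generalize hD : Real.cosh c - Real.sinh c * (z : ℂ).re = D at h ⊢
  rw [← mul_div_assoc, eq_div_iff h, sub_mul, div_mul_cancel₀ _ h, ← hD]
  ring

lemma mob_frac_le (c : ℝ) (z : Circle) :
    0 ≤ (1 - (z : ℂ).re ^ 2) / (Real.cosh c - Real.sinh c * (z : ℂ).re) ∧
    (1 - (z : ℂ).re ^ 2) / (Real.cosh c - Real.sinh c * (z : ℂ).re) ≤ 1 := by
  have h := mob_pos c (circle_sq z)
  have h1 := re_sq_le z
  refine ⟨div_nonneg (by linarith) h.le, ?_⟩
  rw [div_le_one h]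
  have h2 : (1 - (z : ℂ).re ^ 2) ^ 2 ≤ (Real.cosh c - Real.sinh c * (z : ℂ).re) ^ 2 := by
    have h3 : (Real.cosh c - Real.sinh c * (z : ℂ).re) ^ 2 =
        (1 - (z : ℂ).re ^ 2) + (Real.cosh c * (z : ℂ).re - Real.sinh c) ^ 2 := by
      have := Real.cosh_sq c
      nlinarith
    have h4 : (1 - (z : ℂ).re ^ 2) ^ 2 ≤ 1 - (z : ℂ).re ^ 2 := by
      nlinarith [sq_nonneg (z : ℂ).re]
    rw [h3]
    nlinarith [sq_nonneg (Real.cosh c * (z : ℂ).re - Real.sinh c)]
  exact (sq_le_sq₀ (by linarith) h.le).1 h2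

lemma mul_sinh_le {t : ℝ} (ht : |t| ≤ 1) : t * Real.sinh t ≤ 2 * t ^ 2 := by
  have h1 := Real.abs_exp_sub_one_sub_id_le ht
  have h2 := Real.abs_exp_sub_one_sub_id_le (x := -t) (by rwa [abs_neg])
  rw [abs_le] at h1 h2 ht
  rw [Real.sinh_eq]
  rcases le_total 0 t with h | h
  · nlinarith
  · nlinarith

lemma dil_im_sq {k : ℝ} (hk : 0 < k) (z : Circle) :
    ((dilC k hk z : Circle) : ℂ).im ^ 2 =
      (z : ℂ).im ^ 2 * (1 - (1 - (k ^ 2)⁻¹) * ((dilC k hk z : Circle) : ℂ).re ^ 2) := by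
  have h := dil_pos hk (circle_sq z)
  have h2 := Real.sq_sqrt h.le
  rw [coe_dilC, dilF_re, dilF_im, div_pow, div_pow, h2]
  have h3 : (z : ℂ).im ^ 2 = 1 - (z : ℂ).re ^ 2 := by linarith [circle_sq z]
  rw [h3] at h ⊢
  have h4 := h.ne'
  generalize hD : (k * (z : ℂ).re) ^ 2 + (1 - (z : ℂ).re ^ 2) = D at h4 ⊢
  have h5 : k ^ 2 ≠ 0 := by positivity
  rw [div_eq_iff h4]
  have h6 : (1 - (z : ℂ).re ^ 2) * (1 - (1 - (k ^ 2)⁻¹) * ((k * (z : ℂ).re) ^ 2 / D)) * D =
      (1 - (z : ℂ).re ^ 2) * (D - (1 - (k ^ 2)⁻¹) * (k * (z : ℂ).re) ^ 2) := by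
    field_simp
  rw [h6, ← hD]
  field_simp
  ring

/-- The Lyapunov function `W(z, w) = (Im z)^2 (Im w)^2`. -/
def WW (p : T2) : ℝ := (p.1 : ℂ).im ^ 2 * (p.2 : ℂ).im ^ 2

lemma WW_le (p : T2) : WW (theMap p) ≤ WW p *
    Real.exp (-((((mapD p).1 : ℂ).re ^ 2 + ((mapD p).2 : ℂ).re ^ 2) / 10)) := by
  rw [theMap_apply]
  set z1 := (mapD p).1 with hz1
  set w1 := (mapD p).2 with hw1
  have hD : mapD p = (z1, w1) := rfl
  rw [hD]
  set c := ee * (w1 : ℂ).re with hc
  set z2 := mobC c z1 with hz2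
  set d := -(ee * (z2 : ℂ).re) with hd
  have hA : mapA (z1, w1) = (z2, w1) := rfl
  have hB : mapB (z2, w1) = (z2, mobC d w1) := rfl
  rw [hA, hB]
  have e1 := mob_im_sq_le c z1
  have e2 := mob_im_sq_le d w1
  have e3 : ((z1 : Circle) : ℂ).im ^ 2 = (p.1 : ℂ).im ^ 2 *
      (1 - (1 - (kk ^ 2)⁻¹) * (z1 : ℂ).re ^ 2) := dil_im_sq kk_pos p.1
  have e4 : ((w1 : Circle) : ℂ).im ^ 2 = (p.2 : ℂ).im ^ 2 *
      (1 - (1 - (kk ^ 2)⁻¹) * (w1 : ℂ).re ^ 2) := dil_im_sq kk_pos p.2
  have hq : 1 - (kk ^ 2)⁻¹ = 9 / 25 := by unfold kk; norm_num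
  rw [hq] at e3 e4
  have e5 : 1 - 9 / 25 * (z1 : ℂ).re ^ 2 ≤ Real.exp (-(9 / 25 * (z1 : ℂ).re ^ 2)) := by
    have := Real.add_one_le_exp (-(9 / 25 * (z1 : ℂ).re ^ 2)); linarith
  have e6 : 1 - 9 / 25 * (w1 : ℂ).re ^ 2 ≤ Real.exp (-(9 / 25 * (w1 : ℂ).re ^ 2)) := by
    have := Real.add_one_le_exp (-(9 / 25 * (w1 : ℂ).re ^ 2)); linarith
  have e7 : 2 * (c * (z1 : ℂ).re) + 2 * (d * (w1 : ℂ).re) ≤ 4 * ee ^ 2 * (w1 : ℂ).re ^ 2 := by
    have h1 := mob_re_sub c z1
    obtain ⟨h2, h3⟩ := mob_frac_le c z1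
    set r := (1 - (z1 : ℂ).re ^ 2) / (Real.cosh c - Real.sinh c * (z1 : ℂ).re) with hr
    have h4 : 2 * (c * (z1 : ℂ).re) + 2 * (d * (w1 : ℂ).re) =
        2 * c * ((z1 : ℂ).re - (z2 : ℂ).re) := by rw [hd, hc]; ring
    have h5 : c * Real.sinh c ≤ 2 * c ^ 2 := by
      apply mul_sinh_le
      rw [hc, abs_mul]
      have : |(w1 : ℂ).re| ≤ 1 := by rw [← sq_le_one_iff_abs_le_one]; exact re_sq_le w1
      have h6 : |ee| = 1 / 4 := by unfold ee; norm_num
      rw [h6]; linarith
    have h7 : 0 ≤ c * Real.sinh c := by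
      rcases le_total 0 c with h | h
      · exact mul_nonneg h (Real.sinh_nonneg_iff.2 h)
      · exact mul_nonneg_of_nonpos_of_nonpos h (Real.sinh_nonpos_iff.2 h)
    rw [h4, h1]
    calc 2 * c * (Real.sinh c * r) = 2 * (c * Real.sinh c) * r := by ring
      _ ≤ 2 * (c * Real.sinh c) * 1 := by gcongr
      _ ≤ 4 * c ^ 2 := by linarith
      _ = 4 * ee ^ 2 * (w1 : ℂ).re ^ 2 := by rw [hc]; ring
  have hee : 4 * ee ^ 2 = 1 / 4 := by unfold ee; norm_num
  rw [hee] at e7
  have hx1 := re_sq_le z1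
  have hy1 := re_sq_le w1
  change (z2 : ℂ).im ^ 2 * ((mobC d w1 : Circle) : ℂ).im ^ 2 ≤ (p.1 : ℂ).im ^ 2 * (p.2 : ℂ).im ^ 2 * _
  calc (z2 : ℂ).im ^ 2 * ((mobC d w1 : Circle) : ℂ).im ^ 2
      ≤ ((z1 : ℂ).im ^ 2 * Real.exp (2 * (c * (z1 : ℂ).re))) *
        ((w1 : ℂ).im ^ 2 * Real.exp (2 * (d * (w1 : ℂ).re))) := by gcongr
    _ = (z1 : ℂ).im ^ 2 * (w1 : ℂ).im ^ 2 *
        Real.exp (2 * (c * (z1 : ℂ).re) + 2 * (d * (w1 : ℂ).re)) := by
        rw [Real.exp_add]; ring
    _ ≤ (z1 : ℂ).im ^ 2 * (w1 : ℂ).im ^ 2 * Real.exp (1 / 4 * (w1 : ℂ).re ^ 2) := by gcongr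
    _ = (p.1 : ℂ).im ^ 2 * (p.2 : ℂ).im ^ 2 * ((1 - 9 / 25 * (z1 : ℂ).re ^ 2) *
        (1 - 9 / 25 * (w1 : ℂ).re ^ 2) * Real.exp (1 / 4 * (w1 : ℂ).re ^ 2)) := by
        rw [e3, e4]; ring
    _ ≤ (p.1 : ℂ).im ^ 2 * (p.2 : ℂ).im ^ 2 * (Real.exp (-(9 / 25 * (z1 : ℂ).re ^ 2)) *
        Real.exp (-(9 / 25 * (w1 : ℂ).re ^ 2)) * Real.exp (1 / 4 * (w1 : ℂ).re ^ 2)) := by
        gcongr
        linarith
    _ = (p.1 : ℂ).im ^ 2 * (p.2 : ℂ).im ^ 2 * Real.exp (-(9 / 25 * (z1 : ℂ).re ^ 2) +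
        -(9 / 25 * (w1 : ℂ).re ^ 2) + 1 / 4 * (w1 : ℂ).re ^ 2) := by
        rw [Real.exp_add, Real.exp_add]
    _ ≤ _ := by
        gcongr
        nlinarith [sq_nonneg (z1 : ℂ).re, sq_nonneg (w1 : ℂ).re]


/-! ### Behaviour on the invariant circles -/

lemma dil_re_eq {k : ℝ} (hk : 0 < k) (z : Circle) :
    ((dilC k hk z : Circle) : ℂ).re = k * (z : ℂ).re / √((k * (z : ℂ).re) ^ 2 + (z : ℂ).im ^ 2) :=
  rfl

/-- If `exp c > k ≥ 1` and `z ≠ ± 1`, then `mob_c ∘ dil_k` strictly decreases the real part. -/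
lemma re_lt_of_pos {k c : ℝ} (hk : 1 ≤ k) (hc : k < Real.exp c) (z : Circle)
    (hz : (z : ℂ).im ≠ 0) :
    ((mobC c (dilC k (by linarith) z) : Circle) : ℂ).re < (z : ℂ).re ∧
    (z : ℂ).re < ((mobC (-c) (dilC k (by linarith) z) : Circle) : ℂ).re := by
  have hk0 : 0 < k := by linarith
  set X := (z : ℂ).re with hX
  set Y := (z : ℂ).im with hY
  have hXY : X ^ 2 + Y ^ 2 = 1 := circle_sq z
  have hY2 : 0 < Y ^ 2 := by positivity
  have hX1 : -1 < X ∧ X < 1 := by
    rw [← abs_lt, ← sq_lt_one_iff_abs_lt_one]; linarith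
  have hpos : 0 < (k * X) ^ 2 + Y ^ 2 := by positivity
  set N := √((k * X) ^ 2 + Y ^ 2) with hN
  have hN0 : 0 < N := Real.sqrt_pos.2 hpos
  have hN2 : N ^ 2 = (k * X) ^ 2 + Y ^ 2 := Real.sq_sqrt hpos.le
  have hNk : N ≤ k := by
    apply (sq_le_sq₀ hN0.le hk0.le).1
    rw [hN2]
    have hk2 : 1 ≤ k ^ 2 := by nlinarith
    calc (k * X) ^ 2 + Y ^ 2 ≤ (k * X) ^ 2 + k ^ 2 * Y ^ 2 := by nlinarith
      _ = k ^ 2 * (X ^ 2 + Y ^ 2) := by ring
      _ = k ^ 2 := by rw [hXY, mul_one]
  have hkX : |k * X| < N := by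
    apply abs_lt_of_sq_lt_sq _ hN0.le
    rw [hN2]; linarith
  obtain ⟨h1, h2⟩ := abs_lt.1 hkX
  have hprod : (N - k * X) * (N + k * X) = (1 - X) * (1 + X) := by
    have : (N - k * X) * (N + k * X) = N ^ 2 - (k * X) ^ 2 := by ring
    rw [this, hN2]; linarith
  have hE : 0 < Real.exp c := Real.exp_pos c
  have hE' : Real.exp (-c) * Real.exp c = 1 := by rw [← Real.exp_add]; simp
  have hEi : 0 < Real.exp (-c) := Real.exp_pos _
  -- two basic estimates
  have f1 : (1 - X) ≤ k * (N - k * X) := by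
    have h3 : N + k * X ≤ k * (1 + X) := by nlinarith
    have h4 : (1 - X) * (1 + X) ≤ (N - k * X) * (k * (1 + X)) := by
      rw [← hprod]
      apply mul_le_mul_of_nonneg_left h3 (by linarith)
    have h5 : (1 - X) * (1 + X) ≤ (k * (N - k * X)) * (1 + X) := by linarith
    exact le_of_mul_le_mul_right h5 (by linarith [hX1.1])
  have f2 : (1 + X) ≤ k * (N + k * X) := by
    have h3 : N - k * X ≤ k * (1 - X) := by nlinarith
    have h4 : (1 - X) * (1 + X) ≤ (k * (1 - X)) * (N + k * X) := by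
      rw [← hprod]
      apply mul_le_mul_of_nonneg_right h3 (by linarith)
    have h5 : (1 - X) * (1 + X) ≤ (1 - X) * (k * (N + k * X)) := by linarith
    exact le_of_mul_le_mul_left h5 (by linarith [hX1.2])
  have g1 : N - k * X < Real.exp c * (1 - X) * 1 := by
    have : N - k * X ≤ k * (1 - X) := by nlinarith
    have h6 : k * (1 - X) < Real.exp c * (1 - X) := by
      apply mul_lt_mul_of_pos_right hc; linarith [hX1.2]
    linarith
  have g2 : N + k * X < Real.exp c * (1 + X) * 1 := by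
    have : N + k * X ≤ k * (1 + X) := by nlinarith
    have h6 : k * (1 + X) < Real.exp c * (1 + X) := by
      apply mul_lt_mul_of_pos_right hc; linarith [hX1.1]
    linarith
  have g3 : (1 - X) < Real.exp c * (N - k * X) := by
    refine lt_of_le_of_lt f1 ?_
    apply mul_lt_mul_of_pos_right hc; linarith
  have g4 : (1 + X) < Real.exp c * (N + k * X) := by
    refine lt_of_le_of_lt f2 ?_
    apply mul_lt_mul_of_pos_right hc; linarith
  -- main inequalities
  have m1 : 0 < Real.exp c * ((1 + X) * (N - k * X)) - Real.exp (-c) * ((1 - X) * (N + k * X)) := by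
    have h7 : Real.exp (-c) * ((1 - X) * (N + k * X)) < (1 - X) * (1 + X) := by
      calc Real.exp (-c) * ((1 - X) * (N + k * X))
          < Real.exp (-c) * ((1 - X) * (Real.exp c * (1 + X) * 1)) := by
            apply mul_lt_mul_of_pos_left _ hEi
            apply mul_lt_mul_of_pos_left g2
            linarith [hX1.2]
        _ = (Real.exp (-c) * Real.exp c) * ((1 - X) * (1 + X)) := by ring
        _ = (1 - X) * (1 + X) := by rw [hE', one_mul]
    have h8 : (1 - X) * (1 + X) < Real.exp c * ((1 + X) * (N - k * X)) := by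
      calc (1 - X) * (1 + X) < (Real.exp c * (N - k * X)) * (1 + X) := by
            apply mul_lt_mul_of_pos_right g3; linarith [hX1.1]
        _ = _ := by ring
    linarith
  have m2 : 0 < Real.exp c * ((1 - X) * (N + k * X)) - Real.exp (-c) * ((1 + X) * (N - k * X)) := by
    have h7 : Real.exp (-c) * ((1 + X) * (N - k * X)) < (1 - X) * (1 + X) := by
      calc Real.exp (-c) * ((1 + X) * (N - k * X))
          < Real.exp (-c) * ((1 + X) * (Real.exp c * (1 - X) * 1)) := by
            apply mul_lt_mul_of_pos_left _ hEi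
            apply mul_lt_mul_of_pos_left g1
            linarith [hX1.1]
        _ = (Real.exp (-c) * Real.exp c) * ((1 - X) * (1 + X)) := by ring
        _ = (1 - X) * (1 + X) := by rw [hE', one_mul]
    have h8 : (1 - X) * (1 + X) < Real.exp c * ((1 - X) * (N + k * X)) := by
      calc (1 - X) * (1 + X) < (1 - X) * (Real.exp c * (N + k * X)) := by
            apply mul_lt_mul_of_pos_left g4; linarith [hX1.2]
        _ = _ := by ring
    linarith
  have hre : ((dilC k hk0 z : Circle) : ℂ).re = k * X / N := rfl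
  have d1 := mob_pos c (circle_sq (dilC k hk0 z))
  have d2 := mob_pos (-c) (circle_sq (dilC k hk0 z))
  rw [hre] at d1 d2
  constructor
  · rw [coe_mobC, mobF_re, hre, div_lt_iff₀ d1]
    have e1 : X * (Real.cosh c - Real.sinh c * (k * X / N)) -
        (Real.cosh c * (k * X / N) - Real.sinh c) =
        (X * (Real.cosh c * N - Real.sinh c * (k * X)) -
        (Real.cosh c * (k * X) - Real.sinh c * N)) / N := by
      field_simp
    have e2 : 0 < (X * (Real.cosh c * N - Real.sinh c * (k * X)) -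
        (Real.cosh c * (k * X) - Real.sinh c * N)) / N := by
      apply div_pos _ hN0
      rw [Real.cosh_eq, Real.sinh_eq]
      nlinarith
    linarith
  · rw [coe_mobC, mobF_re, hre, lt_div_iff₀ d2]
    rw [Real.cosh_neg, Real.sinh_neg]
    have e1 : (Real.cosh c * (k * X / N) - -Real.sinh c) -
        X * (Real.cosh c - -Real.sinh c * (k * X / N)) =
        ((Real.cosh c * (k * X) + Real.sinh c * N) -
        X * (Real.cosh c * N + Real.sinh c * (k * X))) / N := by
      field_simp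
      ring
    have e2 : 0 < ((Real.cosh c * (k * X) + Real.sinh c * N) -
        X * (Real.cosh c * N + Real.sinh c * (k * X))) / N := by
      apply div_pos _ hN0
      rw [Real.cosh_eq, Real.sinh_eq]
      nlinarith
    linarith

lemma ee_exp : kk < Real.exp ee := by
  have h : ee + 1 < Real.exp ee := Real.add_one_lt_exp (by unfold ee; norm_num)
  have : kk = ee + 1 := by unfold kk ee; norm_num
  rwa [this]

lemma one_le_kk : 1 ≤ kk := by unfold kk; norm_num

lemma dilC_of_im {k : ℝ} (hk : 0 < k) {z : Circle} (hz : (z : ℂ).im = 0) : dilC k hk z = z := by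
  have h := circle_sq z
  rw [hz] at h
  have h1 : (z : ℂ).re ^ 2 = 1 := by linarith
  have h2 : √((k * (z : ℂ).re) ^ 2 + (z : ℂ).im ^ 2) = k := by
    rw [hz, Real.sqrt_eq_iff_mul_self_eq (by positivity) hk.le, mul_pow, h1]
    ring
  apply circle_ext
  · rw [coe_dilC, dilF_re, h2]; field_simp
  · rw [coe_dilC, dilF_im, h2, hz]; simp

lemma mobC_of_im (c : ℝ) {z : Circle} (hz : (z : ℂ).im = 0) : mobC c z = z := by
  have h := circle_sq z
  rw [hz] at h
  have h1 : (z : ℂ).re ^ 2 = 1 := by linarith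
  have h2 := mob_pos c (circle_sq z)
  apply circle_ext
  · rw [coe_mobC, mobF_re, div_eq_iff h2.ne']
    have h3 : (z : ℂ).re * (Real.cosh c - Real.sinh c * (z : ℂ).re) =
      Real.cosh c * (z : ℂ).re - Real.sinh c * (z : ℂ).re ^ 2 := by ring
    rw [h3, h1, mul_one]
  · rw [coe_mobC, mobF_im, hz]; simp

lemma dilC_of_re {k : ℝ} (hk : 0 < k) {z : Circle} (hz : (z : ℂ).re = 0) : dilC k hk z = z := by
  have h := circle_sq z
  rw [hz] at h
  have h1 : (z : ℂ).im ^ 2 = 1 := by linarith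
  have h2 : √((k * (z : ℂ).re) ^ 2 + (z : ℂ).im ^ 2) = 1 := by
    rw [hz, h1]; simp
  apply circle_ext
  · rw [coe_dilC, dilF_re, h2, hz]; simp
  · rw [coe_dilC, dilF_im, h2]; simp

lemma mobC_zero (z : Circle) : mobC 0 z = z := by
  apply circle_ext
  · rw [coe_mobC, mobF_re]; simp
  · rw [coe_mobC, mobF_im]; simp


/-! ### Recurrent points are fixed points -/

lemma eq_of_recurrent {M : Type*} [TopologicalSpace M] {f : M → M} {S : Set M}
    (hS : Set.MapsTo f S S) {V : M → ℝ} (hV : Continuous V) (hle : ∀ y ∈ S, V (f y) ≤ V y)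
    {x : M} (hx : x ∈ S) (hrec : ∀ s ∈ 𝓝 x, ∃ᶠ n in atTop, f^[n] x ∈ s) : V (f x) = V x := by
  refine le_antisymm (hle x hx) ?_
  by_contra hcon
  push Not at hcon
  have hs : {y | V (f x) < V y} ∈ 𝓝 x := (isOpen_lt continuous_const hV).mem_nhds hcon
  obtain ⟨n, hn1, hn2⟩ := ((hrec _ hs).and_eventually (eventually_ge_atTop 1)).exists
  have hmem : ∀ n, f^[n] x ∈ S := fun n => hS.iterate n hx
  have hmono : ∀ n, V (f^[n + 1] x) ≤ V (f x) := by
    intro n
    induction n with
    | zero => simp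
    | succ n ih =>
      rw [Function.iterate_succ_apply']
      exact (hle _ (hmem _)).trans ih
  obtain ⟨m, rfl⟩ : ∃ m, n = m + 1 := ⟨n - 1, by omega⟩
  exact absurd (hmono m) (not_le.2 hn1)

lemma theMap_of_im_fst {p : T2} (h : (p.1 : ℂ).im = 0) :
    theMap p = (p.1, mobC (-(ee * (p.1 : ℂ).re)) (dilC kk kk_pos p.2)) := by
  rw [theMap_apply]
  have h1 : mapD p = (p.1, dilC kk kk_pos p.2) := by
    unfold mapD; rw [dilC_of_im kk_pos h]
  rw [h1]
  have h2 : mapA (p.1, dilC kk kk_pos p.2) = (p.1, dilC kk kk_pos p.2) := by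
    unfold mapA; rw [mobC_of_im _ h]
  rw [h2]
  rfl

lemma theMap_of_im_snd {p : T2} (h : (p.2 : ℂ).im = 0) :
    theMap p = (mobC (ee * (p.2 : ℂ).re) (dilC kk kk_pos p.1), p.2) := by
  rw [theMap_apply]
  have h1 : mapD p = (dilC kk kk_pos p.1, p.2) := by
    unfold mapD; rw [dilC_of_im kk_pos h]
  rw [h1]
  have h2 : mapA (dilC kk kk_pos p.1, p.2) =
      (mobC (ee * (p.2 : ℂ).re) (dilC kk kk_pos p.1), p.2) := rfl
  rw [h2]
  unfold mapB
  rw [mobC_of_im _ h]

lemma theMap_of_re {p : T2} (h1 : (p.1 : ℂ).re = 0) (h2 : (p.2 : ℂ).re = 0) :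
    theMap p = p := by
  rw [theMap_apply]
  have h3 : mapD p = p := by
    unfold mapD; rw [dilC_of_re kk_pos h1, dilC_of_re kk_pos h2]
  have h4 : mapA p = p := by
    unfold mapA; rw [h2, mul_zero, mobC_zero]
  have h5 : mapB p = p := by
    unfold mapB; rw [h1, mul_zero, neg_zero, mobC_zero]
  rw [h3, h4, h5]

/-- The candidate fixed points: the four corners and the four centres. -/
def FixP (p : T2) : Prop :=
  ((p.1 : ℂ).im = 0 ∧ (p.2 : ℂ).im = 0) ∨ ((p.1 : ℂ).re = 0 ∧ (p.2 : ℂ).re = 0)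

lemma theMap_fix {p : T2} (h : FixP p) : theMap p = p := by
  rcases h with ⟨h1, h2⟩ | ⟨h1, h2⟩
  · rw [theMap_of_im_fst h1, dilC_of_im kk_pos h2, mobC_of_im _ h2]
  · exact theMap_of_re h1 h2

lemma re_of_im {z : Circle} (h : (z : ℂ).im = 0) : (z : ℂ).re = 1 ∨ (z : ℂ).re = -1 := by
  have h1 := circle_sq z
  rw [h] at h1
  have h2 : (z : ℂ).re ^ 2 = 1 := by linarith
  have h3 : ((z : ℂ).re - 1) * ((z : ℂ).re + 1) = 0 := by linear_combination h2
  rcases mul_eq_zero.1 h3 with h4 | h4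
  · left; linarith
  · right; linarith

lemma fixP_of_recurrent {p : T2}
    (hrec : ∀ s ∈ 𝓝 p, ∃ᶠ n in atTop, (⇑theMap)^[n] p ∈ s) : FixP p := by
  have hcoe : Continuous (fun z : Circle => (z : ℂ)) := continuous_subtype_val
  have hW : Continuous WW := by
    unfold WW
    exact ((Complex.continuous_im.comp (hcoe.comp continuous_fst)).pow 2).mul
      ((Complex.continuous_im.comp (hcoe.comp continuous_snd)).pow 2)
  have hWnn : ∀ q, 0 ≤ WW q := fun q => by unfold WW; positivity
  have h1 : WW (theMap p) = WW p := by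
    apply eq_of_recurrent (S := Set.univ) (Set.mapsTo_univ _ _) hW _ (Set.mem_univ _) hrec
    intro q _
    refine (WW_le q).trans ?_
    have : Real.exp (-((((mapD q).1 : ℂ).re ^ 2 + ((mapD q).2 : ℂ).re ^ 2) / 10)) ≤ 1 := by
      rw [Real.exp_le_one_iff]
      have := sq_nonneg ((mapD q).1 : ℂ).re
      have := sq_nonneg ((mapD q).2 : ℂ).re
      linarith
    nlinarith [hWnn q]
  by_cases hW0 : WW p = 0
  · have h2 : (p.1 : ℂ).im = 0 ∨ (p.2 : ℂ).im = 0 := by
      unfold WW at hW0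
      rcases mul_eq_zero.1 hW0 with h | h
      · left; exact pow_eq_zero_iff (two_ne_zero) |>.1 h
      · right; exact pow_eq_zero_iff (two_ne_zero) |>.1 h
    left
    rcases h2 with h2 | h2
    · refine ⟨h2, ?_⟩
      by_contra hne
      obtain ⟨m1, m2⟩ := re_lt_of_pos one_le_kk ee_exp p.2 hne
      have hS : Set.MapsTo theMap {q : T2 | q.1 = p.1} {q : T2 | q.1 = p.1} := by
        intro q hq
        have hq' : q.1 = p.1 := hq
        have h3 : (q.1 : ℂ).im = 0 := by rw [hq']; exact h2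
        change (theMap q).1 = p.1
        rw [theMap_of_im_fst h3]; exact hq
      rcases re_of_im h2 with h4 | h4
      · have h5 := eq_of_recurrent (V := fun q : T2 => -(q.2 : ℂ).re) hS
          (Complex.continuous_re.comp (hcoe.comp continuous_snd)).neg ?_ rfl hrec
        · rw [theMap_of_im_fst h2, h4, mul_one] at h5
          simp only at h5
          linarith
        · intro q hq
          have hq' : q.1 = p.1 := hq
          have h3 : (q.1 : ℂ).im = 0 := by rw [hq']; exact h2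
          rw [theMap_of_im_fst h3, hq', h4, mul_one]
          by_cases h6 : (q.2 : ℂ).im = 0
          · rw [dilC_of_im kk_pos h6, mobC_of_im _ h6]
          · have := (re_lt_of_pos one_le_kk ee_exp q.2 h6).2
            simp only
            linarith
      · have h5 := eq_of_recurrent (V := fun q : T2 => (q.2 : ℂ).re) hS
          (Complex.continuous_re.comp (hcoe.comp continuous_snd)) ?_ rfl hrec
        · rw [theMap_of_im_fst h2, h4, mul_neg, mul_one, neg_neg] at h5
          simp only at h5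
          linarith
        · intro q hq
          have hq' : q.1 = p.1 := hq
          have h3 : (q.1 : ℂ).im = 0 := by rw [hq']; exact h2
          rw [theMap_of_im_fst h3, hq', h4, mul_neg, mul_one, neg_neg]
          by_cases h6 : (q.2 : ℂ).im = 0
          · rw [dilC_of_im kk_pos h6, mobC_of_im _ h6]
          · have := (re_lt_of_pos one_le_kk ee_exp q.2 h6).1
            simp only
            linarith
    · refine ⟨?_, h2⟩
      by_contra hne
      obtain ⟨m1, m2⟩ := re_lt_of_pos one_le_kk ee_exp p.1 hne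
      have hS : Set.MapsTo theMap {q : T2 | q.2 = p.2} {q : T2 | q.2 = p.2} := by
        intro q hq
        have hq' : q.2 = p.2 := hq
        have h3 : (q.2 : ℂ).im = 0 := by rw [hq']; exact h2
        change (theMap q).2 = p.2
        rw [theMap_of_im_snd h3]; exact hq
      rcases re_of_im h2 with h4 | h4
      · have h5 := eq_of_recurrent (V := fun q : T2 => (q.1 : ℂ).re) hS
          (Complex.continuous_re.comp (hcoe.comp continuous_fst)) ?_ rfl hrec
        · rw [theMap_of_im_snd h2, h4, mul_one] at h5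
          simp only at h5
          linarith
        · intro q hq
          have hq' : q.2 = p.2 := hq
          have h3 : (q.2 : ℂ).im = 0 := by rw [hq']; exact h2
          rw [theMap_of_im_snd h3, hq', h4, mul_one]
          by_cases h6 : (q.1 : ℂ).im = 0
          · rw [dilC_of_im kk_pos h6, mobC_of_im _ h6]
          · have := (re_lt_of_pos one_le_kk ee_exp q.1 h6).1
            simp only
            linarith
      · have h5 := eq_of_recurrent (V := fun q : T2 => -(q.1 : ℂ).re) hS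
          (Complex.continuous_re.comp (hcoe.comp continuous_fst)).neg ?_ rfl hrec
        · rw [theMap_of_im_snd h2, h4, mul_neg, mul_one] at h5
          simp only at h5
          linarith
        · intro q hq
          have hq' : q.2 = p.2 := hq
          have h3 : (q.2 : ℂ).im = 0 := by rw [hq']; exact h2
          rw [theMap_of_im_snd h3, hq', h4, mul_neg, mul_one]
          by_cases h6 : (q.1 : ℂ).im = 0
          · rw [dilC_of_im kk_pos h6, mobC_of_im _ h6]
          · have := (re_lt_of_pos one_le_kk ee_exp q.1 h6).2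
            simp only
            linarith
  · right
    have hWp : 0 < WW p := lt_of_le_of_ne (hWnn p) (Ne.symm hW0)
    have h2 := WW_le p
    rw [h1] at h2
    have h3 : 1 ≤ Real.exp (-((((mapD p).1 : ℂ).re ^ 2 + ((mapD p).2 : ℂ).re ^ 2) / 10)) := by
      by_contra hcon
      push Not at hcon
      nlinarith
    rw [Real.one_le_exp_iff] at h3
    have h4 : ((mapD p).1 : ℂ).re = 0 := by
      have := sq_nonneg ((mapD p).1 : ℂ).re
      have := sq_nonneg ((mapD p).2 : ℂ).re
      exact pow_eq_zero_iff (two_ne_zero) |>.1 (by linarith)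
    have h5 : ((mapD p).2 : ℂ).re = 0 := by
      have := sq_nonneg ((mapD p).1 : ℂ).re
      have := sq_nonneg ((mapD p).2 : ℂ).re
      exact pow_eq_zero_iff (two_ne_zero) |>.1 (by linarith)
    have key : ∀ z : Circle, ((dilC kk kk_pos z : Circle) : ℂ).re = 0 → (z : ℂ).re = 0 := by
      intro z hz
      rw [dil_re_eq, div_eq_zero_iff] at hz
      rcases hz with hz | hz
      · rcases mul_eq_zero.1 hz with h | h
        · exact absurd h kk_pos.ne'
        · exact h
      · exact absurd hz (Real.sqrt_pos.2 (dil_pos kk_pos (circle_sq z))).ne'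
    exact ⟨key _ h4, key _ h5⟩


/-! ### Derivatives at the fixed points -/

/-- The extension of the map to a neighbourhood of the torus in `ℂ × ℂ`. -/
def FF (q : ℂ × ℂ) : ℂ × ℂ :=
  (mobF (ee * (dilF kk q.2).re) (dilF kk q.1),
    mobF (-(ee * (mobF (ee * (dilF kk q.2).re) (dilF kk q.1)).re)) (dilF kk q.2))

lemma incl_theMap (p : T2) : incl (theMap p) = FF (incl p) := rfl

lemma hasDerivAt_mob {c : ℝ → ℝ} {z : ℝ → ℂ} {c' : ℝ} {z' : ℂ} {t : ℝ} (hc : HasDerivAt c c' t)
    (hz : HasDerivAt z z' t) (h : Real.cosh (c t) - Real.sinh (c t) * (z t).re ≠ 0) :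
    HasDerivAt (fun t => mobF (c t) (z t)) (Complex.equivRealProdCLM.symm
      ((((Real.sinh (c t) * c') * (z t).re + Real.cosh (c t) * z'.re - Real.cosh (c t) * c') *
        (Real.cosh (c t) - Real.sinh (c t) * (z t).re) -
        (Real.cosh (c t) * (z t).re - Real.sinh (c t)) *
        (Real.sinh (c t) * c' - ((Real.cosh (c t) * c') * (z t).re + Real.sinh (c t) * z'.re))) /
        (Real.cosh (c t) - Real.sinh (c t) * (z t).re) ^ 2,
      (z'.im * (Real.cosh (c t) - Real.sinh (c t) * (z t).re) -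
        (z t).im * (Real.sinh (c t) * c' -
          ((Real.cosh (c t) * c') * (z t).re + Real.sinh (c t) * z'.re))) /
        (Real.cosh (c t) - Real.sinh (c t) * (z t).re) ^ 2)) t := by
  have hre : HasDerivAt (fun t => (z t).re) z'.re t := Complex.reCLM.hasFDerivAt.comp_hasDerivAt t hz
  have him : HasDerivAt (fun t => (z t).im) z'.im t := Complex.imCLM.hasFDerivAt.comp_hasDerivAt t hz
  have hch := hc.cosh
  have hsh := hc.sinh
  have hnum := (hch.mul hre).sub hsh
  have hden := hch.sub (hsh.mul hre)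
  have h1 := hnum.div hden h
  have h2 := him.div hden h
  exact Complex.equivRealProdCLM.symm.hasFDerivAt.comp_hasDerivAt t (h1.prodMk h2)

lemma hasDerivAt_dil {k : ℝ} {z : ℝ → ℂ} {z' : ℂ} {t : ℝ}
    (hz : HasDerivAt z z' t) (h : (k * (z t).re) ^ 2 + (z t).im ^ 2 ≠ 0) :
    HasDerivAt (fun t => dilF k (z t)) (Complex.equivRealProdCLM.symm
      (((k * z'.re) * √((k * (z t).re) ^ 2 + (z t).im ^ 2) - (k * (z t).re) *
        ((2 * (k * (z t).re) * (k * z'.re) + 2 * (z t).im * z'.im) /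
          (2 * √((k * (z t).re) ^ 2 + (z t).im ^ 2)))) /
        √((k * (z t).re) ^ 2 + (z t).im ^ 2) ^ 2,
      (z'.im * √((k * (z t).re) ^ 2 + (z t).im ^ 2) - (z t).im *
        ((2 * (k * (z t).re) * (k * z'.re) + 2 * (z t).im * z'.im) /
          (2 * √((k * (z t).re) ^ 2 + (z t).im ^ 2)))) /
        √((k * (z t).re) ^ 2 + (z t).im ^ 2) ^ 2)) t := by
  have hre : HasDerivAt (fun t => (z t).re) z'.re t := Complex.reCLM.hasFDerivAt.comp_hasDerivAt t hz
  have him : HasDerivAt (fun t => (z t).im) z'.im t := Complex.imCLM.hasFDerivAt.comp_hasDerivAt t hz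
  have h0 : 0 < (k * (z t).re) ^ 2 + (z t).im ^ 2 := lt_of_le_of_ne (by positivity) h.symm
  have hN : √((k * (z t).re) ^ 2 + (z t).im ^ 2) ≠ 0 := (Real.sqrt_pos.2 h0).ne'
  have hkre := hre.const_mul k
  have hs0 : HasDerivAt (fun t => (k * (z t).re) ^ 2 + (z t).im ^ 2)
      (2 * (k * (z t).re) * (k * z'.re) + 2 * (z t).im * z'.im) t := by
    have h5 : HasDerivAt (fun t => (k * (z t).re) ^ 2) (2 * (k * (z t).re) * (k * z'.re)) t := by
      simpa using hkre.fun_pow 2
    have h6 : HasDerivAt (fun t => (z t).im ^ 2) (2 * (z t).im * z'.im) t := by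
      simpa using him.fun_pow 2
    exact h5.fun_add h6
  have hs := hs0.sqrt h
  have h1 := hkre.div hs hN
  have h2 := him.div hs hN
  exact Complex.equivRealProdCLM.symm.hasFDerivAt.comp_hasDerivAt t (h1.prodMk h2)


lemma sqrt_sq_one {k a : ℝ} (hk : 0 < k) (ha : a ^ 2 = 1) : √((k * a) ^ 2 + 0 ^ 2) = k := by
  rw [mul_pow, ha]
  simp [Real.sqrt_sq hk.le]

lemma cosh_sub_mul {a c : ℝ} (ha : a ^ 2 = 1) : Real.cosh c - Real.sinh c * a = Real.exp (-(a * c)) := by
  have h3 : (a - 1) * (a + 1) = 0 := by linear_combination ha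
  rcases mul_eq_zero.1 h3 with h4 | h4
  · have : a = 1 := by linarith
    subst this
    rw [mul_one, one_mul, Real.cosh_sub_sinh]
  · have : a = -1 := by linarith
    subst this
    rw [mul_neg, mul_one, sub_neg_eq_add, neg_mul, one_mul, neg_neg, Real.cosh_add_sinh]

/-- Expanding direction at a corner. -/
lemma corner_deriv {a c : ℝ} (ha : a ^ 2 = 1) (hc : a * c = ee) :
    HasDerivAt (fun t : ℝ => mobF c (dilF kk (Complex.equivRealProdCLM.symm (a, t))))
      (Complex.equivRealProdCLM.symm (0, Real.exp ee / kk)) 0 := by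
  have hz : HasDerivAt (fun t : ℝ => Complex.equivRealProdCLM.symm (a, t))
      (Complex.equivRealProdCLM.symm (0, 1)) 0 :=
    Complex.equivRealProdCLM.symm.hasFDerivAt.comp_hasDerivAt 0
      ((hasDerivAt_const 0 a).prodMk (hasDerivAt_id 0))
  have h0 : (kk * (Complex.equivRealProdCLM.symm (a, (0:ℝ))).re) ^ 2 +
      (Complex.equivRealProdCLM.symm (a, (0:ℝ))).im ^ 2 ≠ 0 := by
    have : (kk * a) ^ 2 + 0 ^ 2 ≠ 0 := by
      rw [mul_pow, ha]; unfold kk; norm_num
    exact this
  have h1 := hasDerivAt_dil hz h0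
  have e1 : (Complex.equivRealProdCLM.symm (a, (0:ℝ))).re = a := rfl
  have e2 : (Complex.equivRealProdCLM.symm (a, (0:ℝ))).im = 0 := rfl
  have e3 : (Complex.equivRealProdCLM.symm ((0:ℝ), (1:ℝ))).re = 0 := rfl
  have e4 : (Complex.equivRealProdCLM.symm ((0:ℝ), (1:ℝ))).im = 1 := rfl
  simp only [e1, e2, e3, e4, sqrt_sq_one kk_pos ha] at h1
  have hd : dilF kk (Complex.equivRealProdCLM.symm (a, (0:ℝ))) =
      Complex.equivRealProdCLM.symm (a, (0:ℝ)) := by
    apply Complex.ext
    · rw [dilF_re, e1, e2, sqrt_sq_one kk_pos ha]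
      field_simp [kk_pos.ne']
    · rw [dilF_im, e2]; simp
  have h2 : HasDerivAt (fun t : ℝ => dilF kk (Complex.equivRealProdCLM.symm (a, t)))
      (Complex.equivRealProdCLM.symm (0, 1 / kk)) 0 := by
    convert h1 using 3
    · ring
    · have := kk_pos.ne'
      field_simp
      ring
  have h3 : Real.cosh c - Real.sinh c * (dilF kk (Complex.equivRealProdCLM.symm (a, (0:ℝ)))).re ≠ 0 := by
    rw [hd, e1, cosh_sub_mul ha]
    exact (Real.exp_pos _).ne'
  have h4 := hasDerivAt_mob (hasDerivAt_const (0:ℝ) c) h2 h3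
  have e5 : (Complex.equivRealProdCLM.symm ((0:ℝ), (1 / kk:ℝ))).re = 0 := rfl
  have e6 : (Complex.equivRealProdCLM.symm ((0:ℝ), (1 / kk:ℝ))).im = 1 / kk := rfl
  simp only [hd, e1, e2, e5, e6, cosh_sub_mul ha] at h4
  convert h4 using 3
  · ring
  · rw [hc]
    have h5 : Real.exp ee * Real.exp (-ee) = 1 := by rw [← Real.exp_add]; simp
    have h6 : Real.exp (-ee) ≠ 0 := (Real.exp_pos _).ne'
    have h7 := kk_pos.ne'
    rw [div_eq_div_iff h7 (by positivity)]
    field_simp
    linear_combination (Real.exp (-ee)) * h5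


lemma mk_congr {A B C D : ℝ} (h1 : A = C) (h2 : B = D) :
    Complex.equivRealProdCLM.symm (A, B) = Complex.equivRealProdCLM.symm (C, D) := by
  rw [h1, h2]

lemma sqrt_one_of {k a : ℝ} (ha : a ^ 2 = 1) : √((k * 0) ^ 2 + a ^ 2) = 1 := by
  rw [ha]; simp

lemma dil_center {a : ℝ} (ha : a ^ 2 = 1) : dilF kk (Complex.equivRealProdCLM.symm ((0:ℝ), a)) =
    Complex.equivRealProdCLM.symm ((0:ℝ), a) := by
  have e1 : (Complex.equivRealProdCLM.symm ((0:ℝ), a)).re = 0 := rfl
  have e2 : (Complex.equivRealProdCLM.symm ((0:ℝ), a)).im = a := rfl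
  apply Complex.ext
  · rw [dilF_re, e1]; simp
  · rw [dilF_im, e1, e2, sqrt_one_of ha]; simp

lemma mob_center_zero (z : ℂ) : mobF 0 z = z := by
  apply Complex.ext
  · rw [mobF_re]; simp
  · rw [mobF_im]; simp

/-- Derivative of the dilation through a centre. -/
lemma dil_center_deriv {a : ℝ} (ha : a ^ 2 = 1) :
    HasDerivAt (fun t : ℝ => dilF kk (Complex.equivRealProdCLM.symm (t, a)))
      (Complex.equivRealProdCLM.symm (kk, 0)) 0 := by
  have hz : HasDerivAt (fun t : ℝ => Complex.equivRealProdCLM.symm (t, a))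
      (Complex.equivRealProdCLM.symm (1, 0)) 0 :=
    Complex.equivRealProdCLM.symm.hasFDerivAt.comp_hasDerivAt 0
      ((hasDerivAt_id 0).prodMk (hasDerivAt_const 0 a))
  have h0 : (kk * (Complex.equivRealProdCLM.symm ((0:ℝ), a)).re) ^ 2 +
      (Complex.equivRealProdCLM.symm ((0:ℝ), a)).im ^ 2 ≠ 0 := by
    have : (kk * 0) ^ 2 + a ^ 2 ≠ 0 := by
      rw [ha]; norm_num
    exact this
  have h1 := hasDerivAt_dil hz h0
  have e1 : (Complex.equivRealProdCLM.symm ((0:ℝ), a)).re = 0 := rfl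
  have e2 : (Complex.equivRealProdCLM.symm ((0:ℝ), a)).im = a := rfl
  have e3 : (Complex.equivRealProdCLM.symm ((1:ℝ), (0:ℝ))).re = 1 := rfl
  have e4 : (Complex.equivRealProdCLM.symm ((1:ℝ), (0:ℝ))).im = 0 := rfl
  simp only [e1, e2, e3, e4, sqrt_one_of ha] at h1
  convert h1 using 3
  · ring
  · ring

/-- Derivative at a centre in the first variable. -/
lemma center_deriv_fst {a b : ℝ} (ha : a ^ 2 = 1) (hb : b ^ 2 = 1) :
    HasDerivAt (fun t : ℝ => FF (Complex.equivRealProdCLM.symm (t, a),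
      Complex.equivRealProdCLM.symm (0, b)))
      (Complex.equivRealProdCLM.symm (kk, 0), Complex.equivRealProdCLM.symm (ee * kk, 0)) 0 := by
  have e1 : (Complex.equivRealProdCLM.symm ((0:ℝ), b)).re = 0 := rfl
  have e2 : (Complex.equivRealProdCLM.symm ((0:ℝ), b)).im = b := rfl
  have hF : (fun t : ℝ => FF (Complex.equivRealProdCLM.symm (t, a),
      Complex.equivRealProdCLM.symm (0, b))) = fun t : ℝ =>
      (dilF kk (Complex.equivRealProdCLM.symm (t, a)),
        mobF (-(ee * (dilF kk (Complex.equivRealProdCLM.symm (t, a))).re))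
          (Complex.equivRealProdCLM.symm (0, b))) := by
    funext t
    unfold FF
    simp only [dil_center hb, e1, mul_zero, mob_center_zero]
  rw [hF]
  have h1 := dil_center_deriv ha
  have h2 : HasDerivAt (fun t : ℝ => -(ee * (dilF kk (Complex.equivRealProdCLM.symm (t, a))).re))
      (-(ee * kk)) 0 :=
    ((Complex.reCLM.hasFDerivAt.comp_hasDerivAt 0 h1).const_mul ee).neg
  have e3 : (dilF kk (Complex.equivRealProdCLM.symm ((0:ℝ), a))).re = 0 := by
    rw [dil_center ha]; rfl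
  have h3 : Real.cosh (-(ee * (dilF kk (Complex.equivRealProdCLM.symm ((0:ℝ), a))).re)) -
      Real.sinh (-(ee * (dilF kk (Complex.equivRealProdCLM.symm ((0:ℝ), a))).re)) *
      (Complex.equivRealProdCLM.symm ((0:ℝ), b)).re ≠ 0 := by
    rw [e3]; simp
  have h4 := hasDerivAt_mob h2 (hasDerivAt_const (0:ℝ) (Complex.equivRealProdCLM.symm ((0:ℝ), b))) h3
  simp only [e3, e1, e2, Complex.zero_re, Complex.zero_im] at h4
  refine h1.prodMk (h4.congr_deriv (mk_congr ?_ ?_))
  · simp
  · simp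

/-- Derivative at a centre in the second variable. -/
lemma center_deriv_snd {a b : ℝ} (ha : a ^ 2 = 1) (hb : b ^ 2 = 1) :
    HasDerivAt (fun t : ℝ => FF (Complex.equivRealProdCLM.symm (0, a),
      Complex.equivRealProdCLM.symm (t, b)))
      (Complex.equivRealProdCLM.symm (-(ee * kk), 0),
        Complex.equivRealProdCLM.symm (kk - ee ^ 2 * kk, 0)) 0 := by
  have e1 : (Complex.equivRealProdCLM.symm ((0:ℝ), a)).re = 0 := rfl
  have e2 : (Complex.equivRealProdCLM.symm ((0:ℝ), a)).im = a := rfl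
  have hF : (fun t : ℝ => FF (Complex.equivRealProdCLM.symm (0, a),
      Complex.equivRealProdCLM.symm (t, b))) = fun t : ℝ =>
      (mobF (ee * (dilF kk (Complex.equivRealProdCLM.symm (t, b))).re)
          (Complex.equivRealProdCLM.symm (0, a)),
        mobF (-(ee * (mobF (ee * (dilF kk (Complex.equivRealProdCLM.symm (t, b))).re)
          (Complex.equivRealProdCLM.symm (0, a))).re))
          (dilF kk (Complex.equivRealProdCLM.symm (t, b)))) := by
    funext t
    unfold FF
    simp only [dil_center ha]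
  rw [hF]
  have h1 := dil_center_deriv hb
  have h2 : HasDerivAt (fun t : ℝ => ee * (dilF kk (Complex.equivRealProdCLM.symm (t, b))).re)
      (ee * kk) 0 :=
    ((Complex.reCLM.hasFDerivAt.comp_hasDerivAt 0 h1).const_mul ee)
  have e3 : (dilF kk (Complex.equivRealProdCLM.symm ((0:ℝ), b))).re = 0 := by
    rw [dil_center hb]; rfl
  have h3 : Real.cosh (ee * (dilF kk (Complex.equivRealProdCLM.symm ((0:ℝ), b))).re) -
      Real.sinh (ee * (dilF kk (Complex.equivRealProdCLM.symm ((0:ℝ), b))).re) *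
      (Complex.equivRealProdCLM.symm ((0:ℝ), a)).re ≠ 0 := by
    rw [e3]; simp
  have h4 := hasDerivAt_mob h2 (hasDerivAt_const (0:ℝ) (Complex.equivRealProdCLM.symm ((0:ℝ), a))) h3
  have h5 : HasDerivAt (fun t : ℝ => mobF (ee * (dilF kk (Complex.equivRealProdCLM.symm (t, b))).re)
      (Complex.equivRealProdCLM.symm (0, a))) (Complex.equivRealProdCLM.symm (-(ee * kk), 0)) 0 := by
    simp only [e3, e1, e2, Complex.zero_re, Complex.zero_im] at h4
    refine h4.congr_deriv (mk_congr ?_ ?_)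
    · simp
    · simp
  have h6 : HasDerivAt (fun t : ℝ => -(ee *
      (mobF (ee * (dilF kk (Complex.equivRealProdCLM.symm (t, b))).re)
      (Complex.equivRealProdCLM.symm (0, a))).re)) (-(ee * (-(ee * kk)))) 0 :=
    ((Complex.reCLM.hasFDerivAt.comp_hasDerivAt 0 h5).const_mul ee).neg
  have e4 : (mobF (ee * (dilF kk (Complex.equivRealProdCLM.symm ((0:ℝ), b))).re)
      (Complex.equivRealProdCLM.symm (0, a))).re = 0 := by
    rw [e3, mul_zero, mob_center_zero]; rfl
  have h7 : Real.cosh (-(ee * (mobF (ee * (dilF kk (Complex.equivRealProdCLM.symm ((0:ℝ), b))).re)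
      (Complex.equivRealProdCLM.symm (0, a))).re)) -
      Real.sinh (-(ee * (mobF (ee * (dilF kk (Complex.equivRealProdCLM.symm ((0:ℝ), b))).re)
      (Complex.equivRealProdCLM.symm (0, a))).re)) *
      (dilF kk (Complex.equivRealProdCLM.symm ((0:ℝ), b))).re ≠ 0 := by
    rw [e4]; simp
  have h8 := hasDerivAt_mob h6 h1 h7
  refine h5.prodMk ?_
  have e5 : (dilF kk (Complex.equivRealProdCLM.symm ((0:ℝ), b))).im = b := by
    rw [dil_center hb]; rfl
  have e6 : (Complex.equivRealProdCLM.symm (kk, (0:ℝ))).re = kk := rfl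
  have e7 : (Complex.equivRealProdCLM.symm (kk, (0:ℝ))).im = 0 := rfl
  simp only [e4] at h8
  simp only [e3, e5, e6, e7] at h8
  refine h8.congr_deriv (mk_congr ?_ ?_)
  · simp; ring
  · simp


lemma FF_differentiableAt (p : T2) : DifferentiableAt ℝ FF (incl p) := by
  have hz := circle_sq p.1
  have hw := circle_sq p.2
  have d1 : DifferentiableAt ℝ (fun q : ℂ × ℂ => dilF kk q.1) (incl p) :=
    ((contDiffAt_dilF kk (incl p).1 (dil_pos kk_pos hz).ne').differentiableAt (by simp)).comp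
      (incl p) differentiableAt_fst
  have d2 : DifferentiableAt ℝ (fun q : ℂ × ℂ => dilF kk q.2) (incl p) :=
    ((contDiffAt_dilF kk (incl p).2 (dil_pos kk_pos hw).ne').differentiableAt (by simp)).comp
      (incl p) differentiableAt_snd
  have d3 : DifferentiableAt ℝ (fun q : ℂ × ℂ => ee * (dilF kk q.2).re) (incl p) :=
    (Complex.reCLM.differentiableAt.comp (incl p) d2).const_mul ee
  have hz1 := dilF_sq kk_pos hz
  have hw1 := dilF_sq kk_pos hw
  have d4 : DifferentiableAt ℝ (fun q : ℂ × ℂ => mobF (ee * (dilF kk q.2).re) (dilF kk q.1))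
      (incl p) :=
    DifferentiableAt.comp (g := fun q : ℝ × ℂ => mobF q.1 q.2)
      (f := fun q : ℂ × ℂ => ((ee * (dilF kk q.2).re, dilF kk q.1) : ℝ × ℂ)) (incl p)
      ((contDiffAt_mobF _ (mob_pos _ hz1).ne').differentiableAt (by simp)) (d3.prodMk d1)
  have d5 : DifferentiableAt ℝ (fun q : ℂ × ℂ =>
      -(ee * (mobF (ee * (dilF kk q.2).re) (dilF kk q.1)).re)) (incl p) :=
    ((Complex.reCLM.differentiableAt.comp (incl p) d4).const_mul ee).neg
  have d6 : DifferentiableAt ℝ (fun q : ℂ × ℂ =>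
      mobF (-(ee * (mobF (ee * (dilF kk q.2).re) (dilF kk q.1)).re)) (dilF kk q.2)) (incl p) :=
    DifferentiableAt.comp (g := fun q : ℝ × ℂ => mobF q.1 q.2)
      (f := fun q : ℂ × ℂ => ((-(ee * (mobF (ee * (dilF kk q.2).re) (dilF kk q.1)).re),
        dilF kk q.2) : ℝ × ℂ)) (incl p)
      ((contDiffAt_mobF _ (mob_pos _ hw1).ne').differentiableAt (by simp)) (d5.prodMk d2)
  exact d4.prodMk d6

lemma fderiv_apply_of_curve {L : ℂ × ℂ →L[ℝ] ℂ × ℂ} {γ : ℝ → ℂ × ℂ} {P v w : ℂ × ℂ}
    (hL : HasFDerivAt FF L P) (h0 : γ 0 = P) (hγ : HasDerivAt γ v 0)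
    (hF : HasDerivAt (fun t => FF (γ t)) w 0) : L v = w := by
  subst h0
  exact (hL.comp_hasDerivAt 0 hγ).unique hF

/-- The growth constant. -/
def lam : ℝ := Real.exp ee / kk

lemma one_lt_lam : 1 < lam := by
  unfold lam
  rw [one_lt_div kk_pos]
  exact ee_exp

lemma lam_le_kk : lam ≤ kk := by
  unfold lam
  rw [div_le_iff₀ kk_pos]
  have h1 : Real.exp ee ≤ 1 / (1 - ee) := by
    have h2 : 1 - ee ≤ Real.exp (-ee) := by have := Real.add_one_le_exp (-ee); linarith
    have h3 : 0 < 1 - ee := by unfold ee; norm_num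
    rw [le_div_iff₀ h3]
    calc Real.exp ee * (1 - ee) ≤ Real.exp ee * Real.exp (-ee) := by
          apply mul_le_mul_of_nonneg_left h2 (Real.exp_pos _).le
      _ = 1 := by rw [← Real.exp_add]; simp
  refine h1.trans ?_
  unfold ee kk
  norm_num

/-- Growth of the iterates of the derivative at the fixed points. -/
lemma growth {p : T2} (hp : FixP p) : ∃ α β : ℝ, ∃ c : ℝ, 0 < c ∧ ∀ n : ℕ,
    c * lam ^ n ≤ ‖((fderiv ℝ FF (incl p)) ^ n)
      (Complex.I * α * (p.1 : ℂ), Complex.I * β * (p.2 : ℂ))‖ := by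
  have hL := (FF_differentiableAt p).hasFDerivAt
  set L := fderiv ℝ FF (incl p) with hLdef
  have hz := circle_sq p.1
  have hw := circle_sq p.2
  rcases hp with ⟨h1, h2⟩ | ⟨h1, h2⟩
  · -- corners
    set a := (p.1 : ℂ).re with ha
    set b := (p.2 : ℂ).re with hb
    rw [h1] at hz
    rw [h2] at hw
    have ha2 : a ^ 2 = 1 := by linarith
    have hb2 : b ^ 2 = 1 := by linarith
    have hp1 : (p.1 : ℂ) = Complex.equivRealProdCLM.symm (a, 0) := by
      apply Complex.ext
      · rfl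
      · exact h1
    have hp2 : (p.2 : ℂ) = Complex.equivRealProdCLM.symm (b, 0) := by
      apply Complex.ext
      · rfl
      · exact h2
    have hincl : incl p = (Complex.equivRealProdCLM.symm (a, 0),
        Complex.equivRealProdCLM.symm (b, 0)) := by
      unfold incl; rw [hp1, hp2]
    have hdil : ∀ x : ℝ, x ^ 2 = 1 → dilF kk (Complex.equivRealProdCLM.symm (x, (0:ℝ))) =
        Complex.equivRealProdCLM.symm (x, (0:ℝ)) := by
      intro x hx
      have e1 : (Complex.equivRealProdCLM.symm (x, (0:ℝ))).re = x := rfl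
      have e2 : (Complex.equivRealProdCLM.symm (x, (0:ℝ))).im = 0 := rfl
      apply Complex.ext
      · rw [dilF_re, e1, e2, sqrt_sq_one kk_pos hx]
        field_simp [kk_pos.ne']
      · rw [dilF_im, e2]; simp
    have hmob : ∀ c x : ℝ, x ^ 2 = 1 → mobF c (Complex.equivRealProdCLM.symm (x, (0:ℝ))) =
        Complex.equivRealProdCLM.symm (x, (0:ℝ)) := by
      intro c x hx
      have e1 : (Complex.equivRealProdCLM.symm (x, (0:ℝ))).re = x := rfl
      have e2 : (Complex.equivRealProdCLM.symm (x, (0:ℝ))).im = 0 := rfl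
      have e3 : Real.cosh c - Real.sinh c * x ≠ 0 := by
        rw [cosh_sub_mul hx]; exact (Real.exp_pos _).ne'
      apply Complex.ext
      · rw [mobF_re, e1, div_eq_iff e3]
        have : x * (Real.cosh c - Real.sinh c * x) =
          Real.cosh c * x - Real.sinh c * x ^ 2 := by ring
        rw [this, hx, mul_one]
      · rw [mobF_im, e2]; simp
    have key : ∀ v : ℂ × ℂ, L v = (lam : ℝ) • v → ∀ n : ℕ, (L ^ n) v = (lam ^ n : ℝ) • v := by
      intro v hv n
      induction n with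
      | zero => simp
      | succ n ih =>
        rw [pow_succ, mul_apply_eq_comp, hv, map_smul, ih, smul_smul, pow_succ, mul_comm]
    have hlam : 0 < lam := lt_trans one_pos one_lt_lam
    have hab : (a * b) = 1 ∨ (a * b) = -1 := by
      have h3 : (a * b - 1) * (a * b + 1) = 0 := by
        have : (a * b) ^ 2 = 1 := by rw [mul_pow, ha2, hb2, one_mul]
        linear_combination this
      rcases mul_eq_zero.1 h3 with h4 | h4
      · left; linarith
      · right; linarith
    have hre : ∀ x : ℝ, (Complex.equivRealProdCLM.symm (x, (0:ℝ))).re = x := fun _ => rfl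
    rcases hab with hab | hab
    · -- expansion in the first variable
      refine ⟨a, 0, 1, one_pos, fun n => ?_⟩
      have hv : ((Complex.I * (a:ℂ) * (p.1 : ℂ), Complex.I * ((0:ℝ):ℂ) * (p.2 : ℂ)) : ℂ × ℂ) =
          (Complex.equivRealProdCLM.symm (0, 1), 0) := by
        rw [hp1]
        apply Prod.ext
        · apply Complex.ext
          · simp
          · simp [← pow_two, ha2]
        · simp
      rw [hv]
      have hLv : L (Complex.equivRealProdCLM.symm (0, 1), 0) =
          (lam : ℝ) • ((Complex.equivRealProdCLM.symm (0, 1), 0) : ℂ × ℂ) := by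
        have hγ : HasDerivAt (fun t : ℝ => ((Complex.equivRealProdCLM.symm (a, t),
            Complex.equivRealProdCLM.symm (b, 0)) : ℂ × ℂ))
            (Complex.equivRealProdCLM.symm (0, 1), 0) 0 :=
          (Complex.equivRealProdCLM.symm.hasFDerivAt.comp_hasDerivAt 0
            ((hasDerivAt_const 0 a).prodMk (hasDerivAt_id 0))).prodMk (hasDerivAt_const _ _)
        have hF : HasDerivAt (fun t : ℝ => FF (Complex.equivRealProdCLM.symm (a, t),
            Complex.equivRealProdCLM.symm (b, 0)))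
            (Complex.equivRealProdCLM.symm (0, lam), 0) 0 := by
          have hFF : (fun t : ℝ => FF (Complex.equivRealProdCLM.symm (a, t),
              Complex.equivRealProdCLM.symm (b, 0))) = fun t : ℝ =>
              (mobF (ee * b) (dilF kk (Complex.equivRealProdCLM.symm (a, t))),
                Complex.equivRealProdCLM.symm (b, (0:ℝ))) := by
            funext t
            unfold FF
            simp only [hdil b hb2, hre, hmob _ b hb2]
          rw [hFF]
          exact (corner_deriv ha2 (by rw [mul_comm ee b, ← mul_assoc, hab, one_mul])).prodMk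
            (hasDerivAt_const _ _)
        have := fderiv_apply_of_curve hL hincl.symm hγ hF
        rw [this]
        apply Prod.ext
        · apply Complex.ext
          · simp
          · simp
        · simp
      rw [key _ hLv n, norm_smul, Real.norm_eq_abs, abs_of_pos (pow_pos hlam n), one_mul]
      have hn : ‖((Complex.equivRealProdCLM.symm (0, 1), 0) : ℂ × ℂ)‖ = 1 := by
        have : Complex.equivRealProdCLM.symm ((0:ℝ), (1:ℝ)) = Complex.I := by
          apply Complex.ext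
          · simp
          · simp
        rw [this]
        simp [Prod.norm_def]
      rw [hn, mul_one]
    · -- expansion in the second variable
      refine ⟨0, b, 1, one_pos, fun n => ?_⟩
      have hv : ((Complex.I * ((0:ℝ):ℂ) * (p.1 : ℂ), Complex.I * (b:ℂ) * (p.2 : ℂ)) : ℂ × ℂ) =
          (0, Complex.equivRealProdCLM.symm (0, 1)) := by
        rw [hp2]
        apply Prod.ext
        · simp
        · apply Complex.ext
          · simp
          · simp [← pow_two, hb2]
      rw [hv]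
      have hLv : L (0, Complex.equivRealProdCLM.symm (0, 1)) =
          (lam : ℝ) • ((0, Complex.equivRealProdCLM.symm (0, 1)) : ℂ × ℂ) := by
        have hγ : HasDerivAt (fun t : ℝ => ((Complex.equivRealProdCLM.symm (a, 0),
            Complex.equivRealProdCLM.symm (b, t)) : ℂ × ℂ))
            (0, Complex.equivRealProdCLM.symm (0, 1)) 0 :=
          (hasDerivAt_const _ _).prodMk (Complex.equivRealProdCLM.symm.hasFDerivAt.comp_hasDerivAt 0
            ((hasDerivAt_const 0 b).prodMk (hasDerivAt_id 0)))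
        have hF : HasDerivAt (fun t : ℝ => FF (Complex.equivRealProdCLM.symm (a, 0),
            Complex.equivRealProdCLM.symm (b, t)))
            (0, Complex.equivRealProdCLM.symm (0, lam)) 0 := by
          have hFF : (fun t : ℝ => FF (Complex.equivRealProdCLM.symm (a, 0),
              Complex.equivRealProdCLM.symm (b, t))) = fun t : ℝ =>
              (Complex.equivRealProdCLM.symm (a, (0:ℝ)),
                mobF (-(ee * a)) (dilF kk (Complex.equivRealProdCLM.symm (b, t)))) := by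
            funext t
            unfold FF
            simp only [hdil a ha2, hre, hmob _ a ha2]
          rw [hFF]
          refine (hasDerivAt_const _ _).prodMk (corner_deriv hb2 ?_)
          have : b * -(ee * a) = -(a * b) * ee := by ring
          rw [this, hab]; ring
        have := fderiv_apply_of_curve hL hincl.symm hγ hF
        rw [this]
        apply Prod.ext
        · simp
        · apply Complex.ext
          · simp
          · simp
      rw [key _ hLv n, norm_smul, Real.norm_eq_abs, abs_of_pos (pow_pos hlam n), one_mul]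
      have hn : ‖((0, Complex.equivRealProdCLM.symm (0, 1)) : ℂ × ℂ)‖ = 1 := by
        have : Complex.equivRealProdCLM.symm ((0:ℝ), (1:ℝ)) = Complex.I := by
          apply Complex.ext
          · simp
          · simp
        rw [this]
        simp [Prod.norm_def]
      rw [hn, mul_one]
  · -- centres
    set a := (p.1 : ℂ).im with ha
    set b := (p.2 : ℂ).im with hb
    rw [h1] at hz
    rw [h2] at hw
    have ha2 : a ^ 2 = 1 := by linarith
    have hb2 : b ^ 2 = 1 := by linarith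
    have hp1 : (p.1 : ℂ) = Complex.equivRealProdCLM.symm (0, a) := by
      apply Complex.ext
      · exact h1
      · rfl
    have hp2 : (p.2 : ℂ) = Complex.equivRealProdCLM.symm (0, b) := by
      apply Complex.ext
      · exact h2
      · rfl
    have hincl : incl p = (Complex.equivRealProdCLM.symm (0, a),
        Complex.equivRealProdCLM.symm (0, b)) := by
      unfold incl; rw [hp1, hp2]
    have hL1 : L (Complex.equivRealProdCLM.symm (1, 0), 0) =
        (Complex.equivRealProdCLM.symm (kk, 0), Complex.equivRealProdCLM.symm (ee * kk, 0)) := by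
      have hγ : HasDerivAt (fun t : ℝ => ((Complex.equivRealProdCLM.symm (t, a),
          Complex.equivRealProdCLM.symm (0, b)) : ℂ × ℂ))
          (Complex.equivRealProdCLM.symm (1, 0), 0) 0 :=
        (Complex.equivRealProdCLM.symm.hasFDerivAt.comp_hasDerivAt 0
          ((hasDerivAt_id 0).prodMk (hasDerivAt_const 0 a))).prodMk (hasDerivAt_const _ _)
      exact fderiv_apply_of_curve hL hincl.symm hγ (center_deriv_fst ha2 hb2)
    have hL2 : L (0, Complex.equivRealProdCLM.symm (1, 0)) =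
        (Complex.equivRealProdCLM.symm (-(ee * kk), 0),
          Complex.equivRealProdCLM.symm (kk - ee ^ 2 * kk, 0)) := by
      have hγ : HasDerivAt (fun t : ℝ => ((Complex.equivRealProdCLM.symm (0, a),
          Complex.equivRealProdCLM.symm (t, b)) : ℂ × ℂ))
          (0, Complex.equivRealProdCLM.symm (1, 0)) 0 :=
        (hasDerivAt_const _ _).prodMk (Complex.equivRealProdCLM.symm.hasFDerivAt.comp_hasDerivAt 0
          ((hasDerivAt_id 0).prodMk (hasDerivAt_const 0 b)))
      exact fderiv_apply_of_curve hL hincl.symm hγ (center_deriv_snd ha2 hb2)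
    have hL3 : ∀ ξ η : ℝ, L ((ξ : ℂ), (η : ℂ)) = (((kk * ξ - ee * kk * η : ℝ) : ℂ),
        ((ee * kk * ξ + (kk - ee ^ 2 * kk) * η : ℝ) : ℂ)) := by
      intro ξ η
      have h3 : (((ξ : ℂ), (η : ℂ)) : ℂ × ℂ) =
          ξ • ((Complex.equivRealProdCLM.symm (1, 0), 0) : ℂ × ℂ) +
          η • ((0, Complex.equivRealProdCLM.symm (1, 0)) : ℂ × ℂ) := by
        apply Prod.ext
        · apply Complex.ext
          · simp
          · simp
        · apply Complex.ext
          · simp
          · simp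
      rw [h3, map_add, map_smul, map_smul, hL1, hL2]
      apply Prod.ext
      · apply Complex.ext
        · simp; ring
        · simp
      · apply Complex.ext
        · simp [pow_two]; ring
        · simp [pow_two]
    refine ⟨-a, 0, 1 / 2, by norm_num, fun n => ?_⟩
    have hv : ((Complex.I * ((-a : ℝ) : ℂ) * (p.1 : ℂ), Complex.I * ((0:ℝ):ℂ) * (p.2 : ℂ)) : ℂ × ℂ) =
        (((1:ℝ):ℂ), ((0:ℝ):ℂ)) := by
      rw [hp1]
      apply Prod.ext
      · apply Complex.ext
        · simp [← pow_two, ha2]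
        · simp
      · simp
    rw [hv]
    have key : ∀ n : ℕ, ∃ ξ η : ℝ, (L ^ n) (((1:ℝ):ℂ), ((0:ℝ):ℂ)) = ((ξ : ℂ), (η : ℂ)) ∧
        ξ ^ 2 - ee * ξ * η + η ^ 2 = kk ^ (2 * n) := by
      intro n
      induction n with
      | zero => exact ⟨1, 0, by simp, by simp⟩
      | succ n ih =>
        obtain ⟨ξ, η, h3, h4⟩ := ih
        refine ⟨kk * ξ - ee * kk * η, ee * kk * ξ + (kk - ee ^ 2 * kk) * η, ?_, ?_⟩
        · rw [pow_succ', mul_apply_eq_comp, h3, hL3]
        · have : kk ^ (2 * (n + 1)) = kk ^ 2 * kk ^ (2 * n) := by ring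
          rw [this, ← h4]
          ring
    obtain ⟨ξ, η, h3, h4⟩ := key n
    rw [h3]
    have h5 : |ξ| ≤ ‖((ξ : ℂ), (η : ℂ))‖ := by
      rw [Prod.norm_def]
      simp
    have h6 : |η| ≤ ‖((ξ : ℂ), (η : ℂ))‖ := by
      rw [Prod.norm_def]
      simp
    set R := ‖((ξ : ℂ), (η : ℂ))‖ with hR
    have hR0 : 0 ≤ R := norm_nonneg _
    have h7 : ξ ^ 2 ≤ R ^ 2 := by rw [← sq_abs]; gcongr
    have h8 : η ^ 2 ≤ R ^ 2 := by rw [← sq_abs]; gcongr
    have h9 : (kk ^ n) ^ 2 ≤ (2 * R) ^ 2 := by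
      have : (kk ^ n) ^ 2 = kk ^ (2 * n) := by rw [← pow_mul, mul_comm]
      rw [this, ← h4]
      have hee : ee = 1 / 4 := rfl
      rw [hee]
      nlinarith [sq_nonneg (ξ + η), sq_nonneg (ξ - η)]
    have h10 : kk ^ n ≤ 2 * R := by
      apply (sq_le_sq₀ (pow_nonneg kk_pos.le n) (by linarith)).1 h9
    have h11 : lam ^ n ≤ kk ^ n := pow_le_pow_left₀ (lt_trans one_pos one_lt_lam).le lam_le_kk n
    linarith

/-! ### Lower bound for the exponents at the fixed points -/


lemma extNorm_nonneg {V W : Type*} [NormedAddCommGroup V] [NormedSpace ℝ V]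
    [NormedAddCommGroup W] [NormedSpace ℝ W] (A : V →L[ℝ] W) (j : ℕ) : 0 ≤ extNorm A j :=
  norm_nonneg (ContinuousAlternatingMap.compContinuousLinearMapCLM A :
    (W [⋀^Fin j]→L[ℝ] ℝ) →L[ℝ] (V [⋀^Fin j]→L[ℝ] ℝ))

lemma norm_le_extNorm {V W : Type*} [NormedAddCommGroup V] [NormedSpace ℝ V] [NormedAddCommGroup W]
    [NormedSpace ℝ W] (A : V →L[ℝ] W) (u : V) : ‖A u‖ ≤ extNorm A 1 * ‖u‖ := by
  rcases eq_or_ne (A u) 0 with h | h
  · rw [h, norm_zero]
    exact mul_nonneg (extNorm_nonneg A 1) (norm_nonneg _)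
  · obtain ⟨g, hg1, hg2⟩ := exists_dual_vector ℝ (A u) (by exact norm_ne_zero_iff.2 h)
    let θ : W [⋀^Fin 1]→L[ℝ] ℝ := ContinuousAlternatingMap.ofSubsingleton ℝ W ℝ 0 g
    have hθ : ‖θ‖ = 1 := by
      rw [← hg1]; exact ContinuousAlternatingMap.norm_ofSubsingleton 0 g
    let Aθ : V [⋀^Fin 1]→L[ℝ] ℝ := ContinuousAlternatingMap.compContinuousLinearMapCLM A θ
    have h1 : Aθ (fun _ => u) = ‖A u‖ := by
      have : Aθ (fun _ => u) = g (A u) := rfl
      rw [this, hg2]; rfl
    have h2 : ‖Aθ‖ ≤ extNorm A 1 * ‖θ‖ := ContinuousLinearMap.le_opNorm _ _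
    calc ‖A u‖ = ‖Aθ (fun _ => u)‖ := by rw [h1, norm_norm]
      _ ≤ ‖Aθ‖ * ∏ i : Fin 1, ‖(fun _ : Fin 1 => u) i‖ := ContinuousAlternatingMap.le_opNorm _ _
      _ = ‖Aθ‖ * ‖u‖ := by simp
      _ ≤ (extNorm A 1 * ‖θ‖) * ‖u‖ := by gcongr
      _ = extNorm A 1 * ‖u‖ := by rw [hθ, mul_one]


/-- The derivative of the inclusion of the torus in `ℂ × ℂ`. -/
def JJ (x : T2) : TangentSpace IT x →L[ℝ] ℂ × ℂ := mfderiv IT 𝓘(ℝ, ℂ × ℂ) incl x

/-- The velocity at `0` of the curve `t ↦ (p.1 e^{i α t}, p.2 e^{i β t})` maps to the expected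
vector under the derivative of the inclusion. -/
lemma exists_tangent (p : T2) (α β : ℝ) : ∃ u : TangentSpace IT p,
    JJ p u = (Complex.I * α * (p.1 : ℂ), Complex.I * β * (p.2 : ℂ)) := by
  let γ : ℝ → T2 := fun t => (p.1 * Circle.exp (α * t), p.2 * Circle.exp (β * t))
  have h0 : γ 0 = p := by simp [γ]
  have hexp : ContMDiff 𝓘(ℝ, ℝ) (𝓡 1) 1 (fun t : ℝ => Circle.exp t) := contMDiff_circleExp
  have hγ : ContMDiff 𝓘(ℝ, ℝ) IT 1 γ := by
    have e1 : ContMDiff 𝓘(ℝ, ℝ) (𝓡 1) 1 (fun t : ℝ => p.1 * Circle.exp (α * t)) :=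
      contMDiff_const.mul (hexp.comp (contDiff_const.mul contDiff_id).contMDiff)
    have e2 : ContMDiff 𝓘(ℝ, ℝ) (𝓡 1) 1 (fun t : ℝ => p.2 * Circle.exp (β * t)) :=
      contMDiff_const.mul (hexp.comp (contDiff_const.mul contDiff_id).contMDiff)
    exact e1.prodMk e2
  have hγ' := ((hγ.contMDiffAt (x := 0)).mdifferentiableAt one_ne_zero).hasMFDerivAt
  have hJ := (contMDiff_incl.contMDiffAt (x := γ 0)).mdifferentiableAt (by simp) |>.hasMFDerivAt
  have hcomp := HasMFDerivAt.comp (0 : ℝ) hJ hγ'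
  let Lc : ℝ →L[ℝ] ℂ × ℂ := (mfderiv IT 𝓘(ℝ, ℂ × ℂ) incl (γ 0)).comp (mfderiv 𝓘(ℝ, ℝ) IT γ 0)
  have hF : HasFDerivAt (incl ∘ γ) Lc 0 := hcomp.hasFDerivAt
  have hcurve : HasDerivAt (incl ∘ γ)
      (Complex.I * α * (p.1 : ℂ), Complex.I * β * (p.2 : ℂ)) 0 := by
    have hone : ∀ (a : ℝ) (z : ℂ), HasDerivAt (fun t : ℝ => z * Complex.exp ((a * t : ℝ) * Complex.I))
        (Complex.I * a * z) 0 := by
      intro a z
      have h1 : HasDerivAt (fun t : ℝ => (((a * t : ℝ) : ℂ) * Complex.I)) ((a : ℂ) * Complex.I) 0 := by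
        have h2 : HasDerivAt (fun t : ℝ => a * t) a 0 := by
          simpa using (hasDerivAt_id (0:ℝ)).const_mul a
        exact (h2.ofReal_comp).mul_const Complex.I
      have h3 := (h1.cexp).const_mul z
      refine h3.congr_deriv ?_
      simp
      ring
    exact (hone α p.1).prodMk (hone β p.2)
  have hex : ∃ u : TangentSpace IT (γ 0),
    JJ (γ 0) u =
      (Complex.I * α * (p.1 : ℂ), Complex.I * β * (p.2 : ℂ)) := by
    refine ⟨mfderiv 𝓘(ℝ, ℝ) IT γ 0 (1 : ℝ), ?_⟩
    exact hF.hasDerivAt.unique hcurve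
  rwa [h0] at hex


lemma incl_iterate (n : ℕ) (p : T2) : incl ((⇑theMap)^[n] p) = FF^[n] (incl p) := by
  induction n generalizing p with
  | zero => rfl
  | succ n ih => rw [Function.iterate_succ_apply, Function.iterate_succ_apply, ih, incl_theMap]

lemma contMDiff_iterate (n : ℕ) : ContMDiff IT IT ω ((⇑theMap)^[n]) := by
  induction n with
  | zero => exact contMDiff_id
  | succ n ih =>
    rw [Function.iterate_succ]
    exact ih.comp theMap.contMDiff_toFun

lemma fderiv_iterate {p : T2} (hp : FixP p) (n : ℕ) (u : TangentSpace IT p) :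
    JJ ((⇑theMap)^[n] p) (mfderiv IT IT ((⇑theMap)^[n]) p u) =
    ((fderiv ℝ FF (incl p)) ^ n) (JJ p u) := by
  have h1 := (((contMDiff_iterate n).contMDiffAt (x := p)).mdifferentiableAt (by simp)).hasMFDerivAt
  have h2 := ((contMDiff_incl.contMDiffAt
    (x := (⇑theMap)^[n] p)).mdifferentiableAt (by simp)).hasMFDerivAt
  have h3 := HasMFDerivAt.comp p h2 h1
  have h4 := ((contMDiff_incl.contMDiffAt (x := p)).mdifferentiableAt (by simp)).hasMFDerivAt
  have hfix : FF (incl p) = incl p := by rw [← incl_theMap, theMap_fix hp]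
  have h5 : HasFDerivAt FF^[n] ((fderiv ℝ FF (incl p)) ^ n) (incl p) :=
    (FF_differentiableAt p).hasFDerivAt.iterate hfix n
  have h6 := HasMFDerivAt.comp p h5.hasMFDerivAt h4
  have h7 : incl ∘ (⇑theMap)^[n] = FF^[n] ∘ incl := funext (incl_iterate n)
  rw [h7] at h3
  have h8 := hasMFDerivAt_unique h3 h6
  exact DFunLike.congr_fun h8 u

lemma iterate_fix {p : T2} (hp : FixP p) (n : ℕ) : (⇑theMap)^[n] p = p :=
  Function.iterate_fixed (theMap_fix hp) n

lemma growth_extNorm [RiemannianBundle (fun x : T2 => TangentSpace IT x)] {p : T2} (hp : FixP p) :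
    ∃ c : ℝ, 0 < c ∧ ∀ n : ℕ, c * lam ^ n ≤ extNorm (mfderiv IT IT ((⇑theMap)^[n]) p) 1 := by
  obtain ⟨α, β, c, hc, hgrow⟩ := growth hp
  obtain ⟨u, hu⟩ := exists_tangent p α β
  have hbound : ∃ C : ℝ, 0 ≤ C ∧ ∀ y : TangentSpace IT p,
      ‖JJ p y‖ ≤ C * ‖y‖ :=
    ⟨‖JJ p‖, ContinuousLinearMap.opNorm_nonneg _, fun y => ContinuousLinearMap.le_opNorm _ _⟩
  obtain ⟨C, hC0, hC⟩ := hbound
  have hC' : ∀ x : T2, x = p → ∀ y : TangentSpace IT x,
      ‖JJ x y‖ ≤ C * ‖y‖ := by
    rintro x rfl y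
    exact hC y
  refine ⟨c / (C * ‖u‖ + 1), by positivity, fun n => ?_⟩
  have h1 := hgrow n
  rw [← hu, ← fderiv_iterate hp n u] at h1
  have h2 := hC' _ (iterate_fix hp n) (mfderiv IT IT ((⇑theMap)^[n]) p u)
  have h3 := norm_le_extNorm (mfderiv IT IT ((⇑theMap)^[n]) p) u
  have h0 : 0 ≤ extNorm (mfderiv IT IT ((⇑theMap)^[n]) p) 1 := extNorm_nonneg _ _
  have h4 : c * lam ^ n ≤ (C * ‖u‖ + 1) * extNorm (mfderiv IT IT ((⇑theMap)^[n]) p) 1 := by
    calc c * lam ^ n ≤ C * ‖mfderiv IT IT ((⇑theMap)^[n]) p u‖ := h1.trans h2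
      _ ≤ C * (extNorm (mfderiv IT IT ((⇑theMap)^[n]) p) 1 * ‖u‖) := by gcongr
      _ = (C * ‖u‖) * extNorm (mfderiv IT IT ((⇑theMap)^[n]) p) 1 := by ring
      _ ≤ (C * ‖u‖ + 1) * extNorm (mfderiv IT IT ((⇑theMap)^[n]) p) 1 := by
        gcongr
        linarith
  rw [div_mul_eq_mul_div, div_le_iff₀ (by positivity)]
  linarith

lemma le_chiPlus [RiemannianBundle (fun x : T2 => TangentSpace IT x)] {p : T2} (hp : FixP p) :
    ENNReal.ofReal (Real.log lam) ≤ chiPlus IT (⇑theMap) p := by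
  obtain ⟨c, hc, hgrow⟩ := growth_extNorm hp
  have hlam : 0 < lam := lt_trans one_pos one_lt_lam
  have hT : Tendsto (fun n : ℕ => ENNReal.ofReal ((1 / (n : ℝ)) * Real.log (c * lam ^ n))) atTop
      (𝓝 (ENNReal.ofReal (Real.log lam))) := by
    apply ENNReal.tendsto_ofReal
    have h1 : Tendsto (fun n : ℕ => Real.log c / (n : ℝ) + Real.log lam) atTop
        (𝓝 (0 + Real.log lam)) :=
      (tendsto_const_div_atTop_nhds_zero_nat (Real.log c)).add tendsto_const_nhds
    rw [zero_add] at h1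
    refine h1.congr' ?_
    filter_upwards [eventually_ge_atTop 1] with n hn
    have hn' : (n : ℝ) ≠ 0 := by positivity
    rw [Real.log_mul hc.ne' (pow_pos hlam n).ne', Real.log_pow]
    field_simp
  rw [← hT.liminf_eq]
  unfold chiPlus
  refine liminf_le_liminf (Eventually.of_forall fun n => ?_)
  apply ENNReal.ofReal_le_ofReal
  apply mul_le_mul_of_nonneg_left _ (by positivity)
  apply Real.log_le_log (by positivity)
  refine (hgrow n).trans ?_
  have hfin : 1 < Module.finrank ℝ (EuclideanSpace ℝ (Fin 1) × EuclideanSpace ℝ (Fin 1)) + 1 := by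
    simp
  exact le_ciSup (f := fun j : Fin (Module.finrank ℝ
    (EuclideanSpace ℝ (Fin 1) × EuclideanSpace ℝ (Fin 1)) + 1) =>
      extNorm (mfderiv IT IT ((⇑theMap)^[n]) p) (j : ℕ)) (Set.finite_range _).bddAbove ⟨1, hfin⟩

/-! ### Entropy of measures carried by fixed points -/

lemma itinEntropy_of_ae_fixed {M : Type*} [MeasurableSpace M] {f : M → M} {ρ : Measure M}
    (hfix : ∀ᵐ x ∂ρ, f x = x) {k : ℕ} (P : M → Fin k) {n : ℕ} (hn : 1 ≤ n) :
    itinEntropy f ρ P n = ∑ b : Fin k, Real.negMulLog (ρ.real {x | P x = b}) := by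
  classical
  unfold itinEntropy
  have h1 : ∀ a : Fin n → Fin k, ρ.real {x | ∀ i : Fin n, P (f^[i] x) = a i} =
      ρ.real {x | ∀ i : Fin n, P x = a i} := by
    intro a
    apply measureReal_congr
    filter_upwards [hfix] with x hx
    have hit : ∀ i : ℕ, f^[i] x = x := fun i => Function.iterate_fixed hx i
    apply propext
    change (∀ i : Fin n, P (f^[i] x) = a i) ↔ (∀ i : Fin n, P x = a i)
    simp only [hit]
  simp only [h1]
  let c : Fin k → (Fin n → Fin k) := fun b _ => b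
  have hc : Function.Injective c := by
    intro b b' hbb
    exact congrFun hbb ⟨0, by omega⟩
  have h2 : ∑ b : Fin k, Real.negMulLog (ρ.real {x | P x = b}) =
      ∑ a ∈ Finset.univ.image c, Real.negMulLog (ρ.real {x | ∀ i : Fin n, P x = a i}) := by
    rw [Finset.sum_image (fun x _ y _ h => hc h)]
    apply Finset.sum_congr rfl
    intro b _
    congr 2
    ext x
    constructor
    · intro h i; exact h
    · intro h; exact h ⟨0, by omega⟩
  rw [h2]
  symm
  apply Finset.sum_subset (Finset.subset_univ _)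
  intro a _ ha
  have h3 : {x | ∀ i : Fin n, P x = a i} = (∅ : Set M) := by
    ext x
    simp only [Set.mem_ofPred_eq, Set.mem_empty_iff_false, iff_false]
    intro h
    apply ha
    rw [Finset.mem_image]
    exact ⟨P x, Finset.mem_univ _, funext fun i => h i⟩
  rw [h3]
  simp

lemma ksEntropy_of_ae_fixed {M : Type*} [MeasurableSpace M] {f : M → M} {ρ : Measure M}
    (hfix : ∀ᵐ x ∂ρ, f x = x) : ksEntropy f ρ = 0 := by
  unfold ksEntropy
  simp only [ENNReal.iSup_eq_zero]
  intro k P _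
  apply Tendsto.limsup_eq
  have h : Tendsto (fun n : ℕ => ENNReal.ofReal
      ((∑ b : Fin k, Real.negMulLog (ρ.real {x | P x = b})) / n)) atTop (𝓝 0) := by
    have := ENNReal.tendsto_ofReal (tendsto_const_div_atTop_nhds_zero_nat
      (∑ b : Fin k, Real.negMulLog (ρ.real {x | P x = b})))
    simpa using this
  refine h.congr' ?_
  filter_upwards [eventually_ge_atTop 1] with n hn
  rw [itinEntropy_of_ae_fixed hfix P hn]

/-- Every invariant probability measure is carried by the fixed points. -/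
lemma ae_fixP [MeasurableSpace T2] [BorelSpace T2] (ρ : Measure T2) [IsProbabilityMeasure ρ]
    (hρ : MeasurePreserving theMap ρ ρ) : ∀ᵐ x ∂ρ, FixP x := by
  have h := hρ.conservative.ae_frequently_mem_of_mem_nhds
  filter_upwards [h] with x hx
  exact fixP_of_recurrent hx

/-! ### Sanity checks: metrics and invariant measures exist -/

/-- The flat bilinear form on the model space of the torus. -/
def flatForm : (EuclideanSpace ℝ (Fin 1) × EuclideanSpace ℝ (Fin 1)) →L[ℝ]
    (EuclideanSpace ℝ (Fin 1) × EuclideanSpace ℝ (Fin 1)) →L[ℝ] ℝ :=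
  (innerSL ℝ).bilinearComp (ContinuousLinearMap.fst ℝ _ _) (ContinuousLinearMap.fst ℝ _ _) +
  (innerSL ℝ).bilinearComp (ContinuousLinearMap.snd ℝ _ _) (ContinuousLinearMap.snd ℝ _ _)

lemma flatForm_apply (v w : EuclideanSpace ℝ (Fin 1) × EuclideanSpace ℝ (Fin 1)) :
    flatForm v w = inner ℝ v.1 w.1 + inner ℝ v.2 w.2 := rfl

lemma flatForm_symm (v w : EuclideanSpace ℝ (Fin 1) × EuclideanSpace ℝ (Fin 1)) :
    flatForm v w = flatForm w v := by
  rw [flatForm_apply, flatForm_apply, real_inner_comm, real_inner_comm w.2]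

lemma flatForm_pos (v : EuclideanSpace ℝ (Fin 1) × EuclideanSpace ℝ (Fin 1)) (hv : v ≠ 0) :
    0 < flatForm v v := by
  rw [flatForm_apply]
  have h1 : 0 ≤ inner ℝ v.1 v.1 := real_inner_self_nonneg
  have h2 : 0 ≤ inner ℝ v.2 v.2 := real_inner_self_nonneg
  rcases eq_or_ne v.1 0 with h | h
  · have h3 : v.2 ≠ 0 := fun h' => hv (Prod.ext h h')
    have := real_inner_self_pos.2 h3
    linarith
  · have := real_inner_self_pos.2 h
    linarith

lemma flatForm_bounded : Bornology.IsVonNBounded ℝ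
    {v : EuclideanSpace ℝ (Fin 1) × EuclideanSpace ℝ (Fin 1) | flatForm v v < 1} := by
  apply (NormedSpace.isVonNBounded_of_isBounded ℝ
    (Metric.isBounded_closedBall (x := (0 : EuclideanSpace ℝ (Fin 1) × EuclideanSpace ℝ (Fin 1)))
      (r := 1))).subset
  intro v hv
  have hv' : flatForm v v < 1 := hv
  rw [flatForm_apply, real_inner_self_eq_norm_sq, real_inner_self_eq_norm_sq] at hv'
  rw [mem_closedBall_zero_iff, Prod.norm_def, sup_le_iff]
  constructor
  · nlinarith [norm_nonneg v.1, norm_nonneg v.2]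
  · nlinarith [norm_nonneg v.1, norm_nonneg v.2]

/-- Sanity check: the tangent bundle of the torus does carry metrics, so that the quantification
over Riemannian metrics in the main result is not vacuous. -/
def flatMetric : RiemannianMetric (fun x : T2 => TangentSpace IT x) where
  inner _ := flatForm
  symm _ v w := flatForm_symm v w
  pos _ v hv := flatForm_pos v hv
  continuousAt _ := by
    have h : Continuous (fun v => flatForm v v) := by fun_prop
    exact h.continuousAt
  isVonNBounded _ := flatForm_bounded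

/-- Sanity check: the Dirac mass at a fixed point is an invariant probability measure. -/
lemma dirac_invariant [MeasurableSpace T2] [BorelSpace T2] :
    MeasurePreserving theMap (Measure.dirac ((1, 1) : T2)) (Measure.dirac ((1, 1) : T2)) := by
  refine ⟨theMap.continuous.measurable, ?_⟩
  have hfix : theMap ((1, 1) : T2) = (1, 1) := theMap_fix (Or.inl ⟨by simp, by simp⟩)
  have h := Measure.map_dirac' (f := (⇑theMap : T2 → T2)) theMap.continuous.measurable (1, 1)
  rw [hfix] at h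
  exact h

/-- **Main result.** There are a nonempty connected compact real-analytic manifold `M` of
dimension two, without boundary, a real-analytic diffeomorphism `f` of `M` and `δ > 0` such that
`f` has an invariant Borel probability measure and, for every Riemannian metric, every
`f`-invariant Borel probability measure `ρ` satisfies `h(ρ) < ∫ χ₊ dρ`; in fact
`h(ρ) = 0` and `∫ χ₊ dρ ≥ δ`. (In the proof `M` is the two-torus and `f` is `theMap`.) -/
theorem result :
    ∃ (E : Type) (_ : NormedAddCommGroup E) (_ : NormedSpace ℝ E) (H : Type)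
      (_ : TopologicalSpace H) (I : ModelWithCorners ℝ E H) (M : Type) (_ : TopologicalSpace M)
      (_ : ChartedSpace H M) (f : Diffeomorph I I M M ω) (δ : ℝ≥0∞),
      Nonempty M ∧ ConnectedSpace M ∧
      Module.finrank ℝ E = 2 ∧ I.Boundaryless ∧ IsManifold I ω M ∧ CompactSpace M ∧ T2Space M ∧
      Nonempty (RiemannianMetric (fun x : M => TangentSpace I x)) ∧
      (∀ [MeasurableSpace M] [BorelSpace M],
        ∃ ρ : Measure M, IsProbabilityMeasure ρ ∧ MeasurePreserving f ρ ρ) ∧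
      0 < δ ∧
      ∀ [MeasurableSpace M] [BorelSpace M] [RiemannianBundle (fun x : M => TangentSpace I x)]
        (ρ : Measure M) [IsProbabilityMeasure ρ], MeasurePreserving f ρ ρ →
        ksEntropy f ρ < ∫⁻ x, chiPlus I f x ∂ρ ∧
          ksEntropy f ρ = 0 ∧ δ ≤ ∫⁻ x, chiPlus I f x ∂ρ := by
  have hδ : 0 < ENNReal.ofReal (Real.log lam) :=
    ENNReal.ofReal_pos.2 (Real.log_pos one_lt_lam)
  refine ⟨EuclideanSpace ℝ (Fin 1) × EuclideanSpace ℝ (Fin 1), inferInstance, inferInstance,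
    ModelProd (EuclideanSpace ℝ (Fin 1)) (EuclideanSpace ℝ (Fin 1)), inferInstance, IT, T2,
    inferInstance, inferInstance, theMap, ENNReal.ofReal (Real.log lam), ⟨((1, 1) : T2)⟩,
    inferInstance, by simp, inferInstance, inferInstance, inferInstance, inferInstance,
    ⟨flatMetric⟩, ?_, hδ, ?_⟩
  · intro _ _
    exact ⟨Measure.dirac ((1, 1) : T2), inferInstance, dirac_invariant⟩
  intro _ _ _ ρ _ hρ
  have hfix := ae_fixP ρ hρ
  have h1 : ksEntropy theMap ρ = 0 :=
    ksEntropy_of_ae_fixed (hfix.mono fun x hx => theMap_fix hx)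
  have h2 : ENNReal.ofReal (Real.log lam) ≤ ∫⁻ x, chiPlus IT theMap x ∂ρ := by
    calc ENNReal.ofReal (Real.log lam) = ∫⁻ _, ENNReal.ofReal (Real.log lam) ∂ρ := by simp
      _ ≤ ∫⁻ x, chiPlus IT theMap x ∂ρ :=
        lintegral_mono_ae (hfix.mono fun x hx => le_chiPlus hx)
  exact ⟨by rw [h1]; exact lt_of_lt_of_le hδ h2, h1, h2⟩

end

end Pool.Agent.Results.MP_794bd6_an.HeteroclinicTorus2
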